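import Pool.Agent.YX49.FL

/-!
# Counting integers of a progression outside given classes (all primes up to `z`)
-/

namespace RS44

open Finset YX49

/-- the integers of `(0, y]` in the class `b` modulo `q` outside the classes `cl p` modulo `p`, `p ∈ P` -/
def sift (y q b : ℕ) (P : Finset ℕ) (cl : ℕ → ℕ) : Finset ℕ :=
  (Ioc 0 y).filter fun n => n ≡ b [MOD q] ∧ ∀ p ∈ P, ¬ n ≡ cl p [MOD p]

/-- product of `1 - 1/p` -/
noncomputable def VV (P : Finset ℕ) : ℝ := ∏ p ∈ P, (1 - 1 / (p : ℝ))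

theorem one_class {q l : ℕ} (hl : l.Prime) (hq : ¬ l ∣ q) (u c : ℤ) :
    ((range l).filter fun n : ℕ => (u + q * (n : ℤ) ≡ c [ZMOD (l : ℤ)])).card = 1 := by
  have : Fact l.Prime := ⟨hl⟩
  have hp0 : (q : ZMod l) ≠ 0 := by
    intro h
    rw [ZMod.natCast_eq_zero_iff] at h
    exact hq h
  rw [Finset.card_eq_one]
  refine ⟨(((c : ZMod l) - u) / q).val, ?_⟩
  ext n
  simp only [mem_filter, mem_range, mem_singleton]
  have hiff : (u + q * (n : ℤ) ≡ c [ZMOD (l : ℤ)]) ↔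
      (n : ZMod l) = ((c : ZMod l) - u) / q := by
    rw [← ZMod.intCast_eq_intCast_iff]
    push_cast
    constructor
    · intro h
      rw [eq_div_iff hp0]
      linear_combination h
    · intro h
      rw [h]
      field_simp
      ring
  rw [hiff]
  constructor
  · rintro ⟨hn, h⟩
    rw [← h, ZMod.val_natCast, Nat.mod_eq_of_lt hn]
  · intro h
    subst h
    exact ⟨ZMod.val_lt _, ZMod.natCast_zmod_val _⟩

open Classical in
/-- the local conditions for `n = u + q m` -/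
noncomputable def xx (P : Finset ℕ) (cl : ℕ → ℕ) (u : ℤ) (q : ℕ) (l m : ℕ) : ℝ :=
  if l ∈ P then (if (u + q * (m : ℤ) ≡ (cl l : ℤ) [ZMOD (l : ℤ)]) then 1 else 0) else 0

theorem om_xx_not {P : Finset ℕ} {cl : ℕ → ℕ} {u : ℤ} {q l : ℕ} (h : l ∉ P) :
    om (xx P cl u q) l = 0 := by
  unfold om xx
  simp [h]

theorem om_xx {P : Finset ℕ} {cl : ℕ → ℕ} {u : ℤ} {q l : ℕ} (hl : l.Prime) (hq : ¬ l ∣ q)
    (h : l ∈ P) : om (xx P cl u q) l = 1 := by
  classical
  have h1 := one_class hl hq u (cl l)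
  unfold om xx
  simp only [h, if_true]
  rw [Finset.sum_ite, Finset.sum_const_zero, add_zero, Finset.sum_const, nsmul_eq_mul, mul_one]
  have : (((range l).filter fun n : ℕ =>
      (u + q * (n : ℤ) ≡ (cl l : ℤ) [ZMOD (l : ℤ)])).card : ℝ) = 1 := by exact_mod_cast h1
  convert this

theorem loc_xx {P : Finset ℕ} {cl : ℕ → ℕ} {u : ℤ} {q : ℕ} (hP : ∀ l ∈ P, l.Prime ∧ ¬ l ∣ q) :
    Loc (xx P cl u q) := by
  classical
  refine ⟨?_, ?_, ?_, ?_⟩
  · intro l n
    unfold xx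
    split_ifs <;> simp
  · intro l n
    unfold xx
    have : (u + q * ((n + l : ℕ) : ℤ) ≡ (cl l : ℤ) [ZMOD (l : ℤ)]) ↔
        (u + q * (n : ℤ) ≡ (cl l : ℤ) [ZMOD (l : ℤ)]) := by
      have e : u + q * ((n + l : ℕ) : ℤ) = (u + q * (n : ℤ)) + l * q := by
        push_cast; ring
      rw [e]
      unfold Int.ModEq
      rw [Int.add_mul_emod_self_left]
    simp only [this]
  · intro l hl
    by_cases h : l ∈ P
    · rw [om_xx hl (hP l h).2 h]; norm_num
    · rw [om_xx_not h]; norm_num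
  · intro l hl
    have h2 : (2 : ℝ) ≤ l := by exact_mod_cast hl.two_le
    by_cases h : l ∈ P
    · rw [om_xx hl (hP l h).2 h]; linarith
    · rw [om_xx_not h]; positivity

theorem WW_xx {P : Finset ℕ} {cl : ℕ → ℕ} {u : ℤ} {q z : ℕ} (hP : ∀ l ∈ P, l.Prime ∧ ¬ l ∣ q)
    (hz : ∀ l ∈ P, l ≤ z) : WW z (xx P cl u q) = VV P := by
  unfold WW VV
  have hsub : P ⊆ prs z := fun l hl => mem_prs.2 ⟨(hP l hl).1, hz l hl⟩
  rw [← Finset.prod_subset hsub]
  · refine prod_congr rfl fun l hl => ?_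
    rw [om_xx (hP l hl).1 (hP l hl).2 hl]
  · intro l _ hl
    rw [om_xx_not hl]; simp

theorem sf_xx_nonneg (P : Finset ℕ) (cl : ℕ → ℕ) (u : ℤ) (q z m : ℕ) :
    0 ≤ sf z (xx P cl u q) m := by
  unfold sf
  refine prod_nonneg fun l _ => ?_
  unfold xx
  split_ifs <;> simp

theorem sf_xx_eq {P : Finset ℕ} {cl : ℕ → ℕ} {u : ℤ} {q z m : ℕ}
    (h : ∀ l ∈ P, ¬ (u + q * (m : ℤ) ≡ (cl l : ℤ) [ZMOD (l : ℤ)])) :
    sf z (xx P cl u q) m = 1 := by
  unfold sf
  refine prod_eq_one fun l _ => ?_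
  unfold xx
  by_cases hl : l ∈ P
  · rw [if_pos hl, if_neg (h l hl), sub_zero]
  · rw [if_neg hl, sub_zero]

theorem sf_xx_zero {P : Finset ℕ} {cl : ℕ → ℕ} {u : ℤ} {q z m : ℕ} (hP : ∀ l ∈ P, l ∈ prs z)
    (h : ∃ l ∈ P, (u + q * (m : ℤ) ≡ (cl l : ℤ) [ZMOD (l : ℤ)])) :
    sf z (xx P cl u q) m = 0 := by
  obtain ⟨l, hl, hh⟩ := h
  unfold sf
  refine prod_eq_zero (hP l hl) ?_
  unfold xx
  rw [if_pos hl, if_pos hh, sub_self]

theorem VV_nonneg {P : Finset ℕ} (hP : ∀ l ∈ P, l.Prime) : 0 ≤ VV P := by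
  refine prod_nonneg fun l hl => ?_
  have h2 : (2 : ℝ) ≤ l := by exact_mod_cast (hP l hl).two_le
  have : 1 / (l : ℝ) ≤ 1 := by rw [div_le_one (by linarith)]; linarith
  linarith

theorem VV_pos {P : Finset ℕ} (hP : ∀ l ∈ P, l.Prime) : 0 < VV P := by
  refine prod_pos fun l hl => ?_
  have h2 : (2 : ℝ) ≤ l := by exact_mod_cast (hP l hl).two_le
  have : 1 / (l : ℝ) < 1 := by rw [div_lt_one (by linarith)]; linarith
  linarith

/-- upper bound in progressions -/
theorem sift_up (δ : ℝ) (hδ : 0 < δ) (hδ1 : δ ≤ 1) : ∃ s : ℕ, 1 ≤ s ∧ ∀ (z y q b : ℕ)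
    (P : Finset ℕ) (cl : ℕ → ℕ), 2 ≤ z → 0 < q → (∀ l ∈ P, l.Prime ∧ ¬ l ∣ q) → (∀ l ∈ P, l ≤ z) →
    z ^ s * q ≤ y → 2 / δ ≤ (y : ℝ) / q →
    ((sift y q b P cl).card : ℝ) ≤ (1 + 2 * δ) * ((y : ℝ) / q) * VV P := by
  obtain ⟨s, hs1, hs⟩ := fund δ hδ hδ1
  refine ⟨s, hs1, fun z y q b P cl hz hq hP hPz hzy hy => ?_⟩
  set u : ℤ := ((b % q : ℕ) : ℤ) - q with hu
  set H : ℕ := y / q + 1 with hH
  have hcard : ((sift y q b P cl).card : ℝ) ≤ ∑ m ∈ Ioc 0 (0 + H), sf z (xx P cl u q) m := by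
    have hinj : Set.InjOn (fun n : ℕ => n / q + 1) (sift y q b P cl : Set ℕ) := by
      intro n hn n' hn' h
      have h1 : n % q = b % q := (mem_filter.1 hn).2.1
      have h2 : n' % q = b % q := (mem_filter.1 hn').2.1
      have h3 : n / q = n' / q := by simpa using h
      rw [← Nat.div_add_mod n q, ← Nat.div_add_mod n' q, h1, h2, h3]
    rw [← card_image_of_injOn hinj]
    have hsub : (sift y q b P cl).image (fun n : ℕ => n / q + 1) ⊆ Ioc 0 (0 + H) := by
      intro m hm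
      obtain ⟨n, hn, rfl⟩ := mem_image.1 hm
      have h1 := mem_Ioc.1 (mem_filter.1 hn).1
      rw [mem_Ioc, hH, zero_add]
      exact ⟨Nat.succ_pos _, Nat.succ_le_succ (Nat.div_le_div_right (c := q) h1.2)⟩
    calc (((sift y q b P cl).image (fun n : ℕ => n / q + 1)).card : ℝ)
        = ∑ m ∈ (sift y q b P cl).image (fun n : ℕ => n / q + 1), (1 : ℝ) := by simp
      _ = ∑ m ∈ (sift y q b P cl).image (fun n : ℕ => n / q + 1), sf z (xx P cl u q) m := by
          refine sum_congr rfl fun m hm => ?_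
          obtain ⟨n, hn, rfl⟩ := mem_image.1 hm
          rw [sf_xx_eq]
          intro l hl hc
          have h1 := (mem_filter.1 hn).2
          apply h1.2 l hl
          have e : u + q * ((n / q + 1 : ℕ) : ℤ) = (n : ℤ) := by
            have h2 : (b % q) = n % q := h1.1.symm
            rw [hu, h2]
            have h3 := Nat.div_add_mod n q
            have h4 : (q : ℤ) * ((n / q : ℕ) : ℤ) + ((n % q : ℕ) : ℤ) = n := by exact_mod_cast h3
            push_cast at h4 ⊢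
            linarith
          rw [e] at hc
          exact (Int.natCast_modEq_iff).1 hc
      _ ≤ ∑ m ∈ Ioc 0 (0 + H), sf z (xx P cl u q) m :=
          sum_le_sum_of_subset_of_nonneg hsub fun m _ _ => sf_xx_nonneg _ _ _ _ _ _
  have hq' : (0 : ℝ) < q := by exact_mod_cast hq
  have hH1 : (y : ℝ) / q ≤ H ∧ (H : ℝ) ≤ (y : ℝ) / q + 1 := by
    rw [hH]
    push_cast
    constructor
    · have := Nat.lt_div_mul_add (a := y) hq
      rw [div_le_iff₀ hq']
      have h5 : (y : ℝ) < ((y / q : ℕ) : ℝ) * q + q := by exact_mod_cast this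
      linarith
    · have : ((y / q : ℕ) : ℝ) ≤ (y : ℝ) / q := Nat.cast_div_le
      linarith
  have hzH : z ^ s ≤ H := by
    have : z ^ s ≤ y / q := (Nat.le_div_iff_mul_le hq).2 hzy
    omega
  have hf := hs z hz (xx P cl u q) (loc_xx hP) 0 H hzH
  rw [WW_xx hP hPz, abs_le] at hf
  have hV := VV_nonneg (P := P) fun l hl => (hP l hl).1
  have hs' : (1 : ℝ) ≤ s := by exact_mod_cast hs1
  have hds : δ / s ≤ δ := by
    rw [div_le_iff₀ (by linarith)]
    nlinarith
  have hyq : 0 ≤ (y : ℝ) / q := by positivity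
  calc ((sift y q b P cl).card : ℝ) ≤ H * VV P + δ / s * (H * VV P) := by linarith [hf.2]
    _ = (1 + δ / s) * (H * VV P) := by ring
    _ ≤ (1 + δ) * (H * VV P) :=
        mul_le_mul_of_nonneg_right (by linarith) (mul_nonneg (by positivity) hV)
    _ ≤ (1 + δ) * (((y : ℝ) / q + 1) * VV P) :=
        mul_le_mul_of_nonneg_left (mul_le_mul_of_nonneg_right hH1.2 hV) (by linarith)
    _ ≤ (1 + 2 * δ) * ((y : ℝ) / q) * VV P := by
        rw [← mul_assoc]
        refine mul_le_mul_of_nonneg_right ?_ hV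
        have h6 : 2 ≤ δ * ((y : ℝ) / q) := by
          rw [div_le_iff₀ hδ] at hy
          linarith
        nlinarith

/-- lower bound for the whole interval -/
theorem sift_down (δ : ℝ) (hδ : 0 < δ) (hδ1 : δ ≤ 1) : ∃ s : ℕ, 1 ≤ s ∧ ∀ (z y : ℕ)
    (P : Finset ℕ) (cl : ℕ → ℕ), 2 ≤ z → (∀ l ∈ P, l.Prime) → (∀ l ∈ P, l ≤ z) →
    z ^ s ≤ y →
    (1 - δ) * y * VV P ≤ ((sift y 1 0 P cl).card : ℝ) := by
  obtain ⟨s, hs1, hs⟩ := fund δ hδ hδ1
  refine ⟨s, hs1, fun z y P cl hz hP hPz hzy => ?_⟩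
  have hP' : ∀ l ∈ P, l.Prime ∧ ¬ l ∣ 1 := fun l hl =>
    ⟨hP l hl, fun h => (hP l hl).one_lt.ne' (Nat.dvd_one.1 h)⟩
  have hf := hs z hz (xx P cl 0 1) (loc_xx hP') 0 y hzy
  rw [WW_xx hP' hPz, abs_le] at hf
  have hV := VV_nonneg hP
  have hs' : (1 : ℝ) ≤ s := by exact_mod_cast hs1
  have hds : δ / s ≤ δ := by
    rw [div_le_iff₀ (by linarith)]
    nlinarith
  have h1 : ∑ m ∈ Ioc 0 (0 + y), sf z (xx P cl 0 1) m ≤ ((sift y 1 0 P cl).card : ℝ) := by
    classical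
    rw [zero_add]
    calc ∑ m ∈ Ioc 0 y, sf z (xx P cl 0 1) m
        ≤ ∑ m ∈ Ioc 0 y, (if m ∈ sift y 1 0 P cl then (1 : ℝ) else 0) := by
          refine sum_le_sum fun m hm => ?_
          by_cases h : m ∈ sift y 1 0 P cl
          · rw [if_pos h]
            unfold sf
            refine prod_le_one (fun l _ => ?_) (fun l _ => ?_)
            · unfold xx; split_ifs <;> simp
            · unfold xx; split_ifs <;> simp
          · rw [if_neg h, sf_xx_zero]
            · intro l hl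
              exact mem_prs.2 ⟨hP l hl, hPz l hl⟩
            · by_contra hcon
              push Not at hcon
              apply h
              refine mem_filter.2 ⟨hm, Nat.modEq_one, fun p hp hc => hcon p hp ?_⟩
              simpa using (Int.natCast_modEq_iff).2 hc
      _ = ((sift y 1 0 P cl).card : ℝ) := by
          rw [← sum_filter, sum_const, nsmul_eq_mul, mul_one]
          congr 2
          ext m
          rw [mem_filter]
          exact ⟨fun h => h.2, fun h => ⟨(mem_filter.1 h).1, h⟩⟩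
  have h2 : δ / s * (y * VV P) ≤ δ * (y * VV P) :=
    mul_le_mul_of_nonneg_right hds (mul_nonneg (by positivity) hV)
  calc (1 - δ) * y * VV P = y * VV P - δ * (y * VV P) := by ring
    _ ≤ y * VV P - δ / s * (y * VV P) := by linarith
    _ ≤ _ := by linarith [hf.1]

/-- two classes -/
theorem two_classes {y q p : ℕ} (b c : ℕ) (h : Nat.Coprime q p) :
    (((Ioc 0 y).filter fun n => n ≡ b [MOD q] ∧ n ≡ c [MOD p]).card : ℝ) ≤
      (y : ℝ) / (q * p) + 1 := by
  obtain ⟨t, ht1, ht2⟩ := Nat.chineseRemainder h b c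
  have hinj : Set.InjOn (fun n : ℕ => n / (q * p))
      ((Ioc 0 y).filter fun n => n ≡ b [MOD q] ∧ n ≡ c [MOD p] : Finset ℕ) := by
    intro n hn n' hn' hh
    have h1 := (mem_filter.1 hn).2
    have h2 := (mem_filter.1 hn').2
    have h3 : n ≡ n' [MOD q * p] :=
      (Nat.modEq_and_modEq_iff_modEq_mul h).1 ⟨h1.1.trans h2.1.symm, h1.2.trans h2.2.symm⟩
    have h4 : n / (q * p) = n' / (q * p) := hh
    rw [← Nat.div_add_mod n (q * p), ← Nat.div_add_mod n' (q * p), h4, h3]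
  rw [← card_image_of_injOn hinj]
  have hsub : ((Ioc 0 y).filter fun n => n ≡ b [MOD q] ∧ n ≡ c [MOD p]).image
      (fun n : ℕ => n / (q * p)) ⊆ range (y / (q * p) + 1) := by
    intro m hm
    obtain ⟨n, hn, rfl⟩ := mem_image.1 hm
    have h1 := mem_Ioc.1 (mem_filter.1 hn).1
    rw [mem_range]
    have := Nat.div_le_div_right (c := q * p) h1.2
    omega
  have h5 := card_le_card hsub
  rw [card_range] at h5
  have h6 : ((y / (q * p) : ℕ) : ℝ) ≤ (y : ℝ) / ((q * p : ℕ) : ℝ) := Nat.cast_div_le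
  push_cast at h6
  calc _ ≤ ((y / (q * p) + 1 : ℕ) : ℝ) := by exact_mod_cast h5
    _ ≤ _ := by push_cast; linarith

end RS44
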