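import Pool.Agent.RS44.EM

/-!
# Concentration of the number of survivors
-/

namespace RS44

open Finset

/-- survivors of the classes with index in `pr` -/
def part {ι : Type} (P : ι → ℕ) (pr : ι → Prop) [Fintype {i // pr i}] (B : Finset ℕ)
    (a : ∀ i : {i // pr i}, Fin (P i)) : Finset ℕ :=
  B.filter fun m => ∀ i : {i // pr i}, ¬ m ≡ (a i : ℕ) [MOD P i]

theorem surv_split {ι : Type} [Fintype ι] (P : ι → ℕ) (pr : ι → Prop) [DecidablePred pr]
    (B : Finset ℕ) (a1 : ∀ i : {i // pr i}, Fin (P i)) (a2 : ∀ i : {i // ¬ pr i}, Fin (P i)) :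
    surv P B ((Equiv.piEquivPiSubtypeProd pr fun i => Fin (P i)).symm (a1, a2)) =
      surv (fun i : {i // ¬ pr i} => P i) (part P pr B a1) a2 := by
  unfold surv part
  ext m
  simp only [mem_filter, Equiv.piEquivPiSubtypeProd_symm_apply]
  constructor
  · rintro ⟨h1, h2⟩
    refine ⟨⟨h1, fun i => ?_⟩, fun i => ?_⟩
    · have := h2 i
      rw [dif_pos i.2] at this
      exact this
    · have := h2 i
      rw [dif_neg i.2] at this
      exact this
  · rintro ⟨⟨h1, h2⟩, h3⟩
    refine ⟨h1, fun i => ?_⟩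
    by_cases h : pr i
    · rw [dif_pos h]; exact h2 ⟨i, h⟩
    · rw [dif_neg h]; exact h3 ⟨i, h⟩

open Classical in
theorem conc_up {ι : Type} [Fintype ι] [DecidableEq ι] (P : ι → ℕ) (hP : ∀ i, 0 < P i)
    (pr : ι → Prop) [DecidablePred pr] (B : Finset ℕ) (M δ μ K T : ℝ)
    (hM : 0 < M) (hδ : 0 ≤ δ) (hδ1 : δ ≤ 1) (hμ : 0 ≤ μ) (hμM : μ * M ≤ δ)
    (hB : ∀ i, ¬ pr i → ∀ a : ℕ, ((B.filter fun m => m ≡ a [MOD P i]).card : ℝ) ≤ M)
    (hK : ∀ a : ∀ i : {i // pr i}, Fin (P i), ((part P pr B a).card : ℝ) ≤ K) :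
    ((univ.filter fun a : ∀ i, Fin (P i) => T < ((surv P B a).card : ℝ)).card : ℝ) ≤
      (∏ i, (P i : ℝ)) *
        Real.exp (μ * ((∏ i : {i // ¬ pr i}, (1 - (1 - δ) / (P i : ℝ))) * K - T)) := by
  set ρ : ℝ := ∏ i : {i // ¬ pr i}, (1 - (1 - δ) / (P i : ℝ)) with hρ
  have hρ0 : 0 ≤ ρ := by
    refine prod_nonneg fun i _ => ?_
    have hp : (1 : ℝ) ≤ P i := by exact_mod_cast hP i
    have h1 : (1 - δ) / (P i : ℝ) ≤ 1 := by
      rw [div_le_one (by linarith)]; linarith
    linarith
  calc ((univ.filter fun a : ∀ i, Fin (P i) => T < ((surv P B a).card : ℝ)).card : ℝ)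
      ≤ ∑ a : ∀ i, Fin (P i), Real.exp (μ * (((surv P B a).card : ℝ) - T)) := by
        rw [card_filter]
        push_cast
        refine sum_le_sum fun a _ => ?_
        split_ifs with h
        · refine Real.one_le_exp (mul_nonneg hμ (by linarith))
        · exact (Real.exp_pos _).le
    _ = Real.exp (-(μ * T)) * ∑ a : ∀ i, Fin (P i), Real.exp (μ * ((surv P B a).card : ℝ)) := by
        rw [mul_sum]
        refine sum_congr rfl fun a _ => ?_
        rw [← Real.exp_add]
        congr 1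
        ring
    _ = Real.exp (-(μ * T)) * ∑ a1 : ∀ i : {i // pr i}, Fin (P i),
          ∑ a2 : ∀ i : {i // ¬ pr i}, Fin (P i),
          Real.exp (μ * ((surv (fun i : {i // ¬ pr i} => P i) (part P pr B a1) a2).card : ℝ)) := by
        congr 1
        rw [← Fintype.sum_prod_type']
        refine (Fintype.sum_equiv (Equiv.piEquivPiSubtypeProd pr fun i => Fin (P i)).symm _ _ ?_).symm
        rintro ⟨a1, a2⟩
        rw [surv_split]
    _ ≤ Real.exp (-(μ * T)) * ∑ _a1 : ∀ i : {i // pr i}, Fin (P i),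
          ((∏ i : {i // ¬ pr i}, (P i : ℝ)) * Real.exp (μ * ρ * K)) := by
        refine mul_le_mul_of_nonneg_left ?_ (Real.exp_pos _).le
        refine sum_le_sum fun a1 _ => ?_
        have h1 := em_up (fun i : {i // ¬ pr i} => P i) (fun i => hP i) (part P pr B a1) M δ μ hM hδ
          hδ1 hμ hμM ?_
        · refine h1.trans ?_
          refine mul_le_mul_of_nonneg_left (Real.exp_le_exp.mpr ?_) (by positivity)
          exact mul_le_mul_of_nonneg_left (hK a1) (mul_nonneg hμ hρ0)
        · intro i a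
          refine le_trans ?_ (hB i i.2 a)
          exact_mod_cast card_le_card (filter_subset_filter _ (filter_subset _ _))
    _ = (∏ i, (P i : ℝ)) * Real.exp (μ * (ρ * K - T)) := by
        rw [sum_const, card_univ, nsmul_eq_mul, Fintype.card_pi]
        simp only [Fintype.card_fin]
        rw [← Fintype.prod_subtype_mul_prod_subtype pr (fun i => (P i : ℝ))]
        push_cast
        rw [show μ * (ρ * K - T) = -(μ * T) + μ * ρ * K by ring, Real.exp_add]
        ring

open Classical in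
theorem conc_down {ι : Type} [Fintype ι] [DecidableEq ι] (P : ι → ℕ) (hP : ∀ i, 2 ≤ P i)
    (pr : ι → Prop) [DecidablePred pr] (B : Finset ℕ) (M δ μ K T : ℝ)
    (hM : 0 < M) (hδ : 0 ≤ δ) (hδ1 : δ ≤ 1 / 2) (hμ : 0 ≤ μ) (hμM : μ * M ≤ δ)
    (hB : ∀ i, ¬ pr i → ∀ a : ℕ, ((B.filter fun m => m ≡ a [MOD P i]).card : ℝ) ≤ M)
    (hK : ∀ a : ∀ i : {i // pr i}, Fin (P i), K ≤ ((part P pr B a).card : ℝ)) :
    ((univ.filter fun a : ∀ i, Fin (P i) => ((surv P B a).card : ℝ) < T).card : ℝ) ≤
      (∏ i, (P i : ℝ)) *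
        Real.exp (μ * (T - (∏ i : {i // ¬ pr i}, (1 - (1 + 2 * δ) / (P i : ℝ))) * K)) := by
  set ρ : ℝ := ∏ i : {i // ¬ pr i}, (1 - (1 + 2 * δ) / (P i : ℝ)) with hρ
  have hρ0 : 0 ≤ ρ := by
    refine prod_nonneg fun i _ => ?_
    have hp : (2 : ℝ) ≤ P i := by exact_mod_cast hP i
    have h1 : (1 + 2 * δ) / (P i : ℝ) ≤ 1 := by
      rw [div_le_one (by linarith)]; linarith
    linarith
  calc ((univ.filter fun a : ∀ i, Fin (P i) => ((surv P B a).card : ℝ) < T).card : ℝ)
      ≤ ∑ a : ∀ i, Fin (P i), Real.exp (μ * (T - ((surv P B a).card : ℝ))) := by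
        rw [card_filter]
        push_cast
        refine sum_le_sum fun a _ => ?_
        split_ifs with h
        · refine Real.one_le_exp (mul_nonneg hμ (by linarith))
        · exact (Real.exp_pos _).le
    _ = Real.exp (μ * T) * ∑ a : ∀ i, Fin (P i), Real.exp (-(μ * ((surv P B a).card : ℝ))) := by
        rw [mul_sum]
        refine sum_congr rfl fun a _ => ?_
        rw [← Real.exp_add]
        congr 1
        ring
    _ = Real.exp (μ * T) * ∑ a1 : ∀ i : {i // pr i}, Fin (P i),
          ∑ a2 : ∀ i : {i // ¬ pr i}, Fin (P i),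
          Real.exp (-(μ * ((surv (fun i : {i // ¬ pr i} => P i) (part P pr B a1) a2).card : ℝ))) := by
        congr 1
        rw [← Fintype.sum_prod_type']
        refine (Fintype.sum_equiv (Equiv.piEquivPiSubtypeProd pr fun i => Fin (P i)).symm _ _ ?_).symm
        rintro ⟨a1, a2⟩
        rw [surv_split]
    _ ≤ Real.exp (μ * T) * ∑ _a1 : ∀ i : {i // pr i}, Fin (P i),
          ((∏ i : {i // ¬ pr i}, (P i : ℝ)) * Real.exp (-(μ * ρ * K))) := by
        refine mul_le_mul_of_nonneg_left ?_ (Real.exp_pos _).le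
        refine sum_le_sum fun a1 _ => ?_
        have h1 := em_down (fun i : {i // ¬ pr i} => P i) (fun i => hP i) (part P pr B a1) M δ μ hM hδ
          hδ1 hμ hμM ?_
        · refine h1.trans ?_
          refine mul_le_mul_of_nonneg_left (Real.exp_le_exp.mpr ?_) (by positivity)
          exact neg_le_neg (mul_le_mul_of_nonneg_left (hK a1) (mul_nonneg hμ hρ0))
        · intro i a
          refine le_trans ?_ (hB i i.2 a)
          exact_mod_cast card_le_card (filter_subset_filter _ (filter_subset _ _))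
    _ = (∏ i, (P i : ℝ)) * Real.exp (μ * (T - ρ * K)) := by
        rw [sum_const, card_univ, nsmul_eq_mul, Fintype.card_pi]
        simp only [Fintype.card_fin]
        rw [← Fintype.prod_subtype_mul_prod_subtype pr (fun i => (P i : ℝ))]
        push_cast
        rw [show μ * (T - ρ * K) = μ * T + -(μ * ρ * K) by ring, Real.exp_add]
        ring

end RS44
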