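import Mathlib

/-!
# Random residue classes: exponential moments of the number of survivors
-/

namespace RS44

open Finset

/-- members of `N` outside the classes `a i` modulo `P i` -/
def surv {ι : Type} [Fintype ι] (P : ι → ℕ) (N : Finset ℕ) (a : ∀ i, Fin (P i)) : Finset ℕ :=
  N.filter fun m => ∀ i, ¬ m ≡ (a i : ℕ) [MOD P i]

theorem sum_class {p : ℕ} (hp : 0 < p) (N : Finset ℕ) :
    ∑ a : Fin p, ((N.filter fun m => m ≡ (a : ℕ) [MOD p]).card : ℝ) = N.card := by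
  have h : N.card = ∑ a : Fin p, (N.filter fun m => (⟨m % p, Nat.mod_lt m hp⟩ : Fin p) = a).card :=
    Finset.card_eq_sum_card_fiberwise (fun m _ => mem_univ _)
  rw [h]
  push_cast
  refine sum_congr rfl fun a _ => ?_
  congr 2
  ext m
  rw [mem_filter, mem_filter]
  refine and_congr_right fun _ => ?_
  rw [Fin.ext_iff]
  show m % p = (a : ℕ) % p ↔ m % p = (a : ℕ)
  rw [Nat.mod_eq_of_lt a.2]

theorem card_not_class {p : ℕ} (N : Finset ℕ) (a : ℕ) :
    ((N.filter fun m => ¬ m ≡ a [MOD p]).card : ℝ) =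
      N.card - ((N.filter fun m => m ≡ a [MOD p]).card : ℝ) := by
  have := Finset.card_filter_add_card_filter_not (s := N) (fun m => m ≡ a [MOD p])
  have h2 : ((N.filter fun m => m ≡ a [MOD p]).card : ℝ) +
      ((N.filter fun m => ¬ m ≡ a [MOD p]).card : ℝ) = N.card := by exact_mod_cast this
  linarith

/-- convexity of the exponential on `[0, M]` -/
theorem exp_chord {M k s : ℝ} (hM : 0 < M) (h0 : 0 ≤ k) (hk : k ≤ M) :
    Real.exp (s * k) ≤ 1 + k / M * (Real.exp (s * M) - 1) := by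
  have hc := convexOn_exp.2 (Set.mem_univ (0 : ℝ)) (Set.mem_univ (s * M))
    (show (0 : ℝ) ≤ 1 - k / M by rw [sub_nonneg, div_le_one hM]; exact hk)
    (show (0 : ℝ) ≤ k / M from div_nonneg h0 hM.le) (by ring)
  simp only [smul_eq_mul, Real.exp_zero, mul_zero, zero_add, mul_one] at hc
  have h1 : k / M * (s * M) = s * k := by field_simp
  rw [h1] at hc
  linarith

theorem step (N : Finset ℕ) {p : ℕ} (hp : 0 < p) {M : ℝ} (hM : 0 < M)
    (h : ∀ a : ℕ, ((N.filter fun m => m ≡ a [MOD p]).card : ℝ) ≤ M) (μ : ℝ) :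
    ∑ a : Fin p, Real.exp (μ * ((N.filter fun m => ¬ m ≡ (a : ℕ) [MOD p]).card : ℝ)) ≤
      p * Real.exp (μ * N.card + (Real.exp (-μ * M) - 1) / (p * M) * N.card) := by
  have hp' : (0 : ℝ) < p := by exact_mod_cast hp
  calc ∑ a : Fin p, Real.exp (μ * ((N.filter fun m => ¬ m ≡ (a : ℕ) [MOD p]).card : ℝ))
      ≤ ∑ a : Fin p, Real.exp (μ * N.card) *
        (1 + ((N.filter fun m => m ≡ (a : ℕ) [MOD p]).card : ℝ) / M * (Real.exp (-μ * M) - 1)) := by
        refine sum_le_sum fun a _ => ?_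
        rw [card_not_class, mul_sub, sub_eq_add_neg, Real.exp_add]
        refine mul_le_mul_of_nonneg_left ?_ (Real.exp_pos _).le
        have := exp_chord (s := -μ) hM (Nat.cast_nonneg _) (h a)
        rw [show -(μ * ((N.filter fun m => m ≡ (a : ℕ) [MOD p]).card : ℝ)) =
          -μ * ((N.filter fun m => m ≡ (a : ℕ) [MOD p]).card : ℝ) by ring]
        exact this
    _ = Real.exp (μ * N.card) * (p + N.card / M * (Real.exp (-μ * M) - 1)) := by
        rw [← mul_sum, sum_add_distrib, ← sum_mul, ← sum_div, sum_class hp N]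
        simp
    _ = p * (Real.exp (μ * N.card) * (1 + (Real.exp (-μ * M) - 1) / (p * M) * N.card)) := by
        field_simp
    _ ≤ p * Real.exp (μ * N.card + (Real.exp (-μ * M) - 1) / (p * M) * N.card) := by
        rw [Real.exp_add]
        refine mul_le_mul_of_nonneg_left ?_ hp'.le
        refine mul_le_mul_of_nonneg_left ?_ (Real.exp_pos _).le
        have := Real.add_one_le_exp ((Real.exp (-μ * M) - 1) / (p * M) * N.card)
        linarith

/-- `1 - e^{-t} ≥ t (1 - t)` -/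
theorem one_sub_exp {t : ℝ} (h0 : 0 ≤ t) : Real.exp (-t) - 1 ≤ -(t * (1 - t)) := by
  have h1 : Real.exp (-t) ≤ 1 / (1 + t) := by
    rw [Real.exp_neg, inv_eq_one_div]
    refine one_div_le_one_div_of_le (by linarith) ?_
    have := Real.add_one_le_exp t
    linarith
  have h2 : 1 / (1 + t) ≤ 1 - t * (1 - t) := by
    rw [div_le_iff₀ (by linarith)]
    nlinarith [mul_nonneg h0 (mul_nonneg h0 h0)]
  linarith

/-- `e^t - 1 ≤ t (1 + 2 t)` for `0 ≤ t ≤ 1/2` -/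
theorem exp_sub_one {t : ℝ} (h0 : 0 ≤ t) (h1 : t ≤ 1 / 2) : Real.exp t - 1 ≤ t * (1 + 2 * t) := by
  have h2 : Real.exp t ≤ 1 / (1 - t) := by
    have h3 := Real.add_one_le_exp (-t)
    rw [Real.exp_neg] at h3
    rw [le_div_iff₀ (by linarith)]
    have h4 := Real.exp_pos t
    have h5 : (-t + 1) * Real.exp t ≤ (Real.exp t)⁻¹ * Real.exp t :=
      mul_le_mul_of_nonneg_right h3 h4.le
    rw [inv_mul_cancel₀ h4.ne'] at h5
    linarith
  have h3 : 1 / (1 - t) ≤ 1 + t * (1 + 2 * t) := by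
    rw [div_le_iff₀ (by linarith)]
    nlinarith [mul_nonneg h0 h0, mul_nonneg (mul_nonneg h0 h0) (by linarith : (0 : ℝ) ≤ 1 - 2 * t)]
  linarith

theorem step_up (N : Finset ℕ) {p : ℕ} (hp : 0 < p) {M : ℝ} (hM : 0 < M)
    (h : ∀ a : ℕ, ((N.filter fun m => m ≡ a [MOD p]).card : ℝ) ≤ M) {μ δ : ℝ} (hμ : 0 ≤ μ)
    (hδ : μ * M ≤ δ) :
    ∑ a : Fin p, Real.exp (μ * ((N.filter fun m => ¬ m ≡ (a : ℕ) [MOD p]).card : ℝ)) ≤
      p * Real.exp (μ * (1 - (1 - δ) / p) * N.card) := by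
  have hp' : (0 : ℝ) < p := by exact_mod_cast hp
  refine (step N hp hM h μ).trans (mul_le_mul_of_nonneg_left (Real.exp_le_exp.mpr ?_) hp'.le)
  have h1 := one_sub_exp (t := μ * M) (by positivity)
  have h2 : (Real.exp (-μ * M) - 1) / (p * M) ≤ -(μ * (1 - δ) / p) := by
    rw [div_le_iff₀ (by positivity)]
    have : -(μ * (1 - δ) / p) * (p * M) = -(μ * M * (1 - δ)) := by field_simp
    rw [this, show -μ * M = -(μ * M) by ring]
    have h3 : μ * M * (1 - δ) ≤ μ * M * (1 - μ * M) :=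
      mul_le_mul_of_nonneg_left (by linarith) (by positivity)
    linarith
  have h3 : (Real.exp (-μ * M) - 1) / (p * M) * N.card ≤ -(μ * (1 - δ) / p) * N.card :=
    mul_le_mul_of_nonneg_right h2 (Nat.cast_nonneg _)
  have h4 : μ * (1 - (1 - δ) / p) * N.card = μ * N.card + -(μ * (1 - δ) / p) * N.card := by ring
  rw [h4]
  linarith

theorem step_down (N : Finset ℕ) {p : ℕ} (hp : 0 < p) {M : ℝ} (hM : 0 < M)
    (h : ∀ a : ℕ, ((N.filter fun m => m ≡ a [MOD p]).card : ℝ) ≤ M) {μ δ : ℝ} (hμ : 0 ≤ μ)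
    (hδ : μ * M ≤ δ) (hδ2 : δ ≤ 1 / 2) :
    ∑ a : Fin p, Real.exp (-(μ * ((N.filter fun m => ¬ m ≡ (a : ℕ) [MOD p]).card : ℝ))) ≤
      p * Real.exp (-(μ * (1 - (1 + 2 * δ) / p) * N.card)) := by
  have hp' : (0 : ℝ) < p := by exact_mod_cast hp
  have hst := step N hp hM h (-μ)
  have e1 : ∀ a : Fin p, Real.exp (-μ * ((N.filter fun m => ¬ m ≡ (a : ℕ) [MOD p]).card : ℝ)) =
      Real.exp (-(μ * ((N.filter fun m => ¬ m ≡ (a : ℕ) [MOD p]).card : ℝ))) := by
    intro a; congr 1; ring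
  rw [sum_congr rfl fun a _ => e1 a] at hst
  refine hst.trans (mul_le_mul_of_nonneg_left (Real.exp_le_exp.mpr ?_) hp'.le)
  have h0 : 0 ≤ μ * M := by positivity
  have h1 := exp_sub_one (t := μ * M) h0 (by linarith)
  have h2 : (Real.exp (-(-μ) * M) - 1) / (p * M) ≤ μ * (1 + 2 * δ) / p := by
    rw [div_le_iff₀ (by positivity)]
    have : μ * (1 + 2 * δ) / p * (p * M) = μ * M * (1 + 2 * δ) := by field_simp
    rw [this, show -(-μ) * M = μ * M by ring]
    have h3 : μ * M * (1 + 2 * (μ * M)) ≤ μ * M * (1 + 2 * δ) :=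
      mul_le_mul_of_nonneg_left (by linarith) h0
    linarith
  have h3 : (Real.exp (-(-μ) * M) - 1) / (p * M) * N.card ≤ μ * (1 + 2 * δ) / p * N.card :=
    mul_le_mul_of_nonneg_right h2 (Nat.cast_nonneg _)
  have h4 : -(μ * (1 - (1 + 2 * δ) / p) * N.card) = -μ * N.card + μ * (1 + 2 * δ) / p * N.card := by
    ring
  rw [h4]
  linarith

theorem surv_cons {n : ℕ} (P : Fin (n + 1) → ℕ) (N : Finset ℕ) (a0 : Fin (P 0))
    (a : ∀ i : Fin n, Fin (P i.succ)) :
    surv P N (Fin.cons a0 a : ∀ i, Fin (P i)) =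
      surv (fun i : Fin n => P i.succ) (N.filter fun m => ¬ m ≡ (a0 : ℕ) [MOD P 0]) a := by
  unfold surv
  ext m
  simp only [mem_filter]
  constructor
  · rintro ⟨h1, h2⟩
    exact ⟨⟨h1, by simpa using h2 0⟩, fun i => by simpa using h2 i.succ⟩
  · rintro ⟨⟨h1, h2⟩, h3⟩
    refine ⟨h1, fun i => ?_⟩
    refine Fin.cases ?_ (fun j => ?_) i
    · simpa using h2
    · simpa using h3 j

theorem em_up_fin (n : ℕ) : ∀ (P : Fin n → ℕ), (∀ i, 0 < P i) → ∀ (N : Finset ℕ) (M δ μ : ℝ),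
    0 < M → 0 ≤ δ → δ ≤ 1 → 0 ≤ μ → μ * M ≤ δ →
    (∀ i (a : ℕ), ((N.filter fun m => m ≡ a [MOD P i]).card : ℝ) ≤ M) →
    ∑ a : ∀ i, Fin (P i), Real.exp (μ * ((surv P N a).card : ℝ)) ≤
      (∏ i, (P i : ℝ)) * Real.exp (μ * (∏ i, (1 - (1 - δ) / (P i : ℝ))) * N.card) := by
  induction n with
  | zero =>
    intro P hP N M δ μ hM hδ hδ1 hμ hμM hN
    simp [surv]
  | succ n ih =>
    intro P hP N M δ μ hM hδ hδ1 hμ hμM hN
    have hfac : ∀ i : Fin (n + 1), 0 ≤ 1 - (1 - δ) / (P i : ℝ) ∧ 1 - (1 - δ) / (P i : ℝ) ≤ 1 := by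
      intro i
      have hp : (1 : ℝ) ≤ P i := by exact_mod_cast hP i
      have h1 : (1 - δ) / (P i : ℝ) ≤ 1 := by
        rw [div_le_one (by linarith)]; linarith
      have h2 : 0 ≤ (1 - δ) / (P i : ℝ) := div_nonneg (by linarith) (by linarith)
      exact ⟨by linarith, by linarith⟩
    set ρ : ℝ := ∏ i : Fin n, (1 - (1 - δ) / (P i.succ : ℝ)) with hρ
    have hρ0 : 0 ≤ ρ := prod_nonneg fun i _ => (hfac i.succ).1
    have hρ1 : ρ ≤ 1 := prod_le_one (fun i _ => (hfac i.succ).1) (fun i _ => (hfac i.succ).2)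
    have e1 : ∑ a : ∀ i, Fin (P i), Real.exp (μ * ((surv P N a).card : ℝ)) =
        ∑ a0 : Fin (P 0), ∑ a : ∀ i : Fin n, Fin (P i.succ),
          Real.exp (μ * ((surv (fun i : Fin n => P i.succ)
            (N.filter fun m => ¬ m ≡ (a0 : ℕ) [MOD P 0]) a).card : ℝ)) := by
      rw [← Fintype.sum_prod_type']
      refine (Fintype.sum_equiv (Fin.consEquiv fun i => Fin (P i)) _ _ ?_).symm
      rintro ⟨a0, a⟩
      rw [← surv_cons]
      rfl
    rw [e1]
    calc ∑ a0 : Fin (P 0), ∑ a : ∀ i : Fin n, Fin (P i.succ),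
          Real.exp (μ * ((surv (fun i : Fin n => P i.succ)
            (N.filter fun m => ¬ m ≡ (a0 : ℕ) [MOD P 0]) a).card : ℝ))
        ≤ ∑ a0 : Fin (P 0), (∏ i : Fin n, (P i.succ : ℝ)) *
          Real.exp (μ * ρ * ((N.filter fun m => ¬ m ≡ (a0 : ℕ) [MOD P 0]).card : ℝ)) := by
          refine sum_le_sum fun a0 _ => ?_
          refine ih (fun i => P i.succ) (fun i => hP i.succ) _ M δ μ hM hδ hδ1 hμ hμM ?_
          intro i a
          refine le_trans ?_ (hN i.succ a)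
          exact_mod_cast card_le_card (filter_subset_filter _ (filter_subset _ _))
      _ = (∏ i : Fin n, (P i.succ : ℝ)) *
          ∑ a0 : Fin (P 0), Real.exp (μ * ρ * ((N.filter fun m => ¬ m ≡ (a0 : ℕ) [MOD P 0]).card : ℝ)) := by
          rw [mul_sum]
      _ ≤ (∏ i : Fin n, (P i.succ : ℝ)) *
          ((P 0 : ℝ) * Real.exp (μ * ρ * (1 - (1 - δ) / (P 0 : ℝ)) * N.card)) := by
          refine mul_le_mul_of_nonneg_left ?_ (by positivity)
          refine step_up N (hP 0) hM (hN 0) (mul_nonneg hμ hρ0) ?_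
          refine le_trans ?_ hμM
          have : μ * ρ ≤ μ := mul_le_of_le_one_right hμ hρ1
          exact mul_le_mul_of_nonneg_right this hM.le
      _ = (∏ i, (P i : ℝ)) * Real.exp (μ * (∏ i, (1 - (1 - δ) / (P i : ℝ))) * N.card) := by
          rw [Fin.prod_univ_succ (fun i => (P i : ℝ)),
            Fin.prod_univ_succ (fun i => 1 - (1 - δ) / (P i : ℝ)), ← hρ]
          rw [show μ * ((1 - (1 - δ) / (P 0 : ℝ)) * ρ) * N.card =
            μ * ρ * (1 - (1 - δ) / (P 0 : ℝ)) * N.card by ring]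
          ring

theorem em_down_fin (n : ℕ) : ∀ (P : Fin n → ℕ), (∀ i, 2 ≤ P i) → ∀ (N : Finset ℕ) (M δ μ : ℝ),
    0 < M → 0 ≤ δ → δ ≤ 1 / 2 → 0 ≤ μ → μ * M ≤ δ →
    (∀ i (a : ℕ), ((N.filter fun m => m ≡ a [MOD P i]).card : ℝ) ≤ M) →
    ∑ a : ∀ i, Fin (P i), Real.exp (-(μ * ((surv P N a).card : ℝ))) ≤
      (∏ i, (P i : ℝ)) * Real.exp (-(μ * (∏ i, (1 - (1 + 2 * δ) / (P i : ℝ))) * N.card)) := by
  induction n with
  | zero =>
    intro P hP N M δ μ hM hδ hδ1 hμ hμM hN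
    simp [surv]
  | succ n ih =>
    intro P hP N M δ μ hM hδ hδ1 hμ hμM hN
    have hfac : ∀ i : Fin (n + 1), 0 ≤ 1 - (1 + 2 * δ) / (P i : ℝ) ∧
        1 - (1 + 2 * δ) / (P i : ℝ) ≤ 1 := by
      intro i
      have hp : (2 : ℝ) ≤ P i := by exact_mod_cast hP i
      have h1 : (1 + 2 * δ) / (P i : ℝ) ≤ 1 := by
        rw [div_le_one (by linarith)]; linarith
      have h2 : 0 ≤ (1 + 2 * δ) / (P i : ℝ) := div_nonneg (by linarith) (by linarith)
      exact ⟨by linarith, by linarith⟩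
    set ρ : ℝ := ∏ i : Fin n, (1 - (1 + 2 * δ) / (P i.succ : ℝ)) with hρ
    have hρ0 : 0 ≤ ρ := prod_nonneg fun i _ => (hfac i.succ).1
    have hρ1 : ρ ≤ 1 := prod_le_one (fun i _ => (hfac i.succ).1) (fun i _ => (hfac i.succ).2)
    have e1 : ∑ a : ∀ i, Fin (P i), Real.exp (-(μ * ((surv P N a).card : ℝ))) =
        ∑ a0 : Fin (P 0), ∑ a : ∀ i : Fin n, Fin (P i.succ),
          Real.exp (-(μ * ((surv (fun i : Fin n => P i.succ)
            (N.filter fun m => ¬ m ≡ (a0 : ℕ) [MOD P 0]) a).card : ℝ))) := by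
      rw [← Fintype.sum_prod_type']
      refine (Fintype.sum_equiv (Fin.consEquiv fun i => Fin (P i)) _ _ ?_).symm
      rintro ⟨a0, a⟩
      rw [← surv_cons]
      rfl
    rw [e1]
    calc ∑ a0 : Fin (P 0), ∑ a : ∀ i : Fin n, Fin (P i.succ),
          Real.exp (-(μ * ((surv (fun i : Fin n => P i.succ)
            (N.filter fun m => ¬ m ≡ (a0 : ℕ) [MOD P 0]) a).card : ℝ)))
        ≤ ∑ a0 : Fin (P 0), (∏ i : Fin n, (P i.succ : ℝ)) *
          Real.exp (-(μ * ρ * ((N.filter fun m => ¬ m ≡ (a0 : ℕ) [MOD P 0]).card : ℝ))) := by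
          refine sum_le_sum fun a0 _ => ?_
          refine ih (fun i => P i.succ) (fun i => hP i.succ) _ M δ μ hM hδ hδ1 hμ hμM ?_
          intro i a
          refine le_trans ?_ (hN i.succ a)
          exact_mod_cast card_le_card (filter_subset_filter _ (filter_subset _ _))
      _ = (∏ i : Fin n, (P i.succ : ℝ)) *
          ∑ a0 : Fin (P 0),
            Real.exp (-(μ * ρ * ((N.filter fun m => ¬ m ≡ (a0 : ℕ) [MOD P 0]).card : ℝ))) := by
          rw [mul_sum]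
      _ ≤ (∏ i : Fin n, (P i.succ : ℝ)) *
          ((P 0 : ℝ) * Real.exp (-(μ * ρ * (1 - (1 + 2 * δ) / (P 0 : ℝ)) * N.card))) := by
          refine mul_le_mul_of_nonneg_left ?_ (by positivity)
          refine step_down N (by have := hP 0; omega) hM (hN 0) (mul_nonneg hμ hρ0) ?_ hδ1
          refine le_trans ?_ hμM
          have : μ * ρ ≤ μ := mul_le_of_le_one_right hμ hρ1
          exact mul_le_mul_of_nonneg_right this hM.le
      _ = (∏ i, (P i : ℝ)) *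
          Real.exp (-(μ * (∏ i, (1 - (1 + 2 * δ) / (P i : ℝ))) * N.card)) := by
          rw [Fin.prod_univ_succ (fun i => (P i : ℝ)),
            Fin.prod_univ_succ (fun i => 1 - (1 + 2 * δ) / (P i : ℝ)), ← hρ]
          rw [show μ * ((1 - (1 + 2 * δ) / (P 0 : ℝ)) * ρ) * N.card =
            μ * ρ * (1 - (1 + 2 * δ) / (P 0 : ℝ)) * N.card by ring]
          ring

theorem surv_equiv {ι : Type} [Fintype ι] {n : ℕ} (e : ι ≃ Fin n) (P : ι → ℕ) (N : Finset ℕ)
    (a : ∀ i, Fin (P i)) :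
    surv (fun j => P (e.symm j)) N (Equiv.piCongrLeft' (fun i => Fin (P i)) e a) = surv P N a := by
  unfold surv
  ext m
  simp only [mem_filter, Equiv.piCongrLeft'_apply]
  refine and_congr_right fun _ => ⟨fun h i => ?_, fun h j => h _⟩
  have := h (e i)
  rw [e.symm_apply_apply] at this
  exact this

theorem em_up {ι : Type} [Fintype ι] [DecidableEq ι] (P : ι → ℕ) (hP : ∀ i, 0 < P i) (N : Finset ℕ) (M δ μ : ℝ)
    (hM : 0 < M) (hδ : 0 ≤ δ) (hδ1 : δ ≤ 1) (hμ : 0 ≤ μ) (hμM : μ * M ≤ δ)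
    (hN : ∀ i (a : ℕ), ((N.filter fun m => m ≡ a [MOD P i]).card : ℝ) ≤ M) :
    ∑ a : ∀ i, Fin (P i), Real.exp (μ * ((surv P N a).card : ℝ)) ≤
      (∏ i, (P i : ℝ)) * Real.exp (μ * (∏ i, (1 - (1 - δ) / (P i : ℝ))) * N.card) := by
  set e := Fintype.equivFin ι
  have h := em_up_fin (Fintype.card ι) (fun j => P (e.symm j)) (fun j => hP _) N M δ μ hM hδ hδ1 hμ
    hμM (fun j a => hN _ a)
  rw [Fintype.prod_equiv e.symm (fun j => ((P (e.symm j) : ℕ) : ℝ)) (fun i => (P i : ℝ)) fun _ => rfl,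
    Fintype.prod_equiv e.symm (fun j => 1 - (1 - δ) / ((P (e.symm j) : ℕ) : ℝ))
      (fun i => 1 - (1 - δ) / (P i : ℝ)) fun _ => rfl] at h
  refine le_trans (le_of_eq ?_) h
  refine Fintype.sum_equiv (Equiv.piCongrLeft' (fun i => Fin (P i)) e) _ _ fun a => ?_
  rw [surv_equiv]

theorem em_down {ι : Type} [Fintype ι] [DecidableEq ι] (P : ι → ℕ) (hP : ∀ i, 2 ≤ P i) (N : Finset ℕ) (M δ μ : ℝ)
    (hM : 0 < M) (hδ : 0 ≤ δ) (hδ1 : δ ≤ 1 / 2) (hμ : 0 ≤ μ) (hμM : μ * M ≤ δ)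
    (hN : ∀ i (a : ℕ), ((N.filter fun m => m ≡ a [MOD P i]).card : ℝ) ≤ M) :
    ∑ a : ∀ i, Fin (P i), Real.exp (-(μ * ((surv P N a).card : ℝ))) ≤
      (∏ i, (P i : ℝ)) * Real.exp (-(μ * (∏ i, (1 - (1 + 2 * δ) / (P i : ℝ))) * N.card)) := by
  set e := Fintype.equivFin ι
  have h := em_down_fin (Fintype.card ι) (fun j => P (e.symm j)) (fun j => hP _) N M δ μ hM hδ hδ1 hμ
    hμM (fun j a => hN _ a)
  rw [Fintype.prod_equiv e.symm (fun j => ((P (e.symm j) : ℕ) : ℝ)) (fun i => (P i : ℝ)) fun _ => rfl,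
    Fintype.prod_equiv e.symm (fun j => 1 - (1 + 2 * δ) / ((P (e.symm j) : ℕ) : ℝ))
      (fun i => 1 - (1 + 2 * δ) / (P i : ℝ)) fun _ => rfl] at h
  refine le_trans (le_of_eq ?_) h
  refine Fintype.sum_equiv (Equiv.piCongrLeft' (fun i => Fin (P i)) e) _ _ fun a => ?_
  rw [surv_equiv]

end RS44
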