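import Pool.Agent.RS44.Conc
import Pool.Agent.RS44.Cnt

/-!
# Random classes on a set `R` of primes: survivors in a progression
-/

namespace RS44

open Finset

/-- the choices of one class for every member of `R` -/
abbrev Ch (R : Finset ℕ) : Type := ∀ i : {p // p ∈ R}, Fin (i : ℕ)

/-- survivors of the choice `a` in `B` -/
def sv (R B : Finset ℕ) (a : Ch R) : Finset ℕ := surv (fun i : {p // p ∈ R} => (i : ℕ)) B a

theorem mem_sv {R B : Finset ℕ} {a : Ch R} {m : ℕ} :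
    m ∈ sv R B a ↔ m ∈ B ∧ ∀ i : {p // p ∈ R}, ¬ m ≡ (a i : ℕ) [MOD (i : ℕ)] := by
  unfold sv surv
  rw [mem_filter]

theorem prod_R (R : Finset ℕ) (f : ℕ → ℝ) : ∏ i : {p // p ∈ R}, f i = ∏ p ∈ R, f p :=
  Finset.prod_coe_sort R f

theorem prod_big (R : Finset ℕ) (z : ℕ) (f : ℕ → ℝ) :
    ∏ i : {i : {p // p ∈ R} // ¬ (i : ℕ) ≤ z}, f (i : {p // p ∈ R}) =
      ∏ p ∈ R.filter (fun p => ¬ p ≤ z), f p := by
  have h := Fintype.prod_subtype_mul_prod_subtype (fun i : {p // p ∈ R} => (i : ℕ) ≤ z)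
    (fun i : {p // p ∈ R} => if (i : ℕ) ≤ z then (1 : ℝ) else f i)
  have h1 : ∏ i : {i : {p // p ∈ R} // (i : ℕ) ≤ z},
      (if ((i : {p // p ∈ R}) : ℕ) ≤ z then (1 : ℝ) else f (i : {p // p ∈ R})) = 1 :=
    prod_eq_one fun i _ => if_pos i.2
  have h2 : ∏ i : {i : {p // p ∈ R} // ¬ (i : ℕ) ≤ z},
      (if ((i : {p // p ∈ R}) : ℕ) ≤ z then (1 : ℝ) else f (i : {p // p ∈ R})) =
      ∏ i : {i : {p // p ∈ R} // ¬ (i : ℕ) ≤ z}, f (i : {p // p ∈ R}) :=
    prod_congr rfl fun i _ => if_neg i.2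
  rw [h1, h2, one_mul] at h
  rw [h, prod_R R (fun p => if p ≤ z then (1 : ℝ) else f p), prod_filter]
  refine prod_congr rfl fun p _ => ?_
  by_cases hp : p ≤ z
  · rw [if_pos hp, if_neg (not_not.2 hp)]
  · rw [if_neg hp, if_pos hp]

theorem VV_split (R : Finset ℕ) (z : ℕ) :
    VV R = VV (R.filter fun p => p ≤ z) * VV (R.filter fun p => ¬ p ≤ z) := by
  unfold VV
  rw [Finset.prod_filter_mul_prod_filter_not]

theorem VV_union {A B : Finset ℕ} (h : Disjoint A B) : VV (A ∪ B) = VV A * VV B := by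
  unfold VV
  rw [prod_union h]

theorem rho_up {S : Finset ℕ} (hS : ∀ p ∈ S, p.Prime) {ε δ : ℝ} (hε : 0 ≤ ε) (hδ : 0 ≤ δ)
    (hδ1 : δ ≤ 1) (h : 4 * ε * ∑ p ∈ S, 1 / (p : ℝ) ≤ δ) :
    ∏ p ∈ S, (1 - (1 - ε) / (p : ℝ)) ≤ (1 + δ) * VV S := by
  have hV := VV_nonneg hS
  calc ∏ p ∈ S, (1 - (1 - ε) / (p : ℝ)) ≤ ∏ p ∈ S, ((1 - 1 / (p : ℝ)) * Real.exp (2 * ε * (1 / p))) := by
        refine prod_le_prod (fun p hp => ?_) (fun p hp => ?_)
        · have h2 : (2 : ℝ) ≤ p := by exact_mod_cast (hS p hp).two_le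
          have : (1 - ε) / (p : ℝ) ≤ 1 := by rw [div_le_one (by linarith)]; linarith
          linarith
        · have h2 : (2 : ℝ) ≤ p := by exact_mod_cast (hS p hp).two_le
          have h3 : 1 - (1 - ε) / (p : ℝ) = (1 - 1 / (p : ℝ)) * (1 + ε / (p - 1)) := by
            have : (p : ℝ) - 1 ≠ 0 := by linarith
            field_simp
            ring
          rw [h3]
          have h4 : 1 / (p : ℝ) ≤ 1 / 2 := one_div_le_one_div_of_le (by norm_num) h2
          refine mul_le_mul_of_nonneg_left ?_ (by linarith)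
          have h5 : ε / ((p : ℝ) - 1) ≤ 2 * ε * (1 / p) := by
            rw [mul_one_div, div_le_div_iff₀ (by linarith) (by linarith)]
            nlinarith
          have h6 := Real.add_one_le_exp (2 * ε * (1 / (p : ℝ)))
          linarith
    _ = VV S * Real.exp (2 * ε * ∑ p ∈ S, 1 / (p : ℝ)) := by
        rw [prod_mul_distrib, ← Real.exp_sum, mul_sum]
        rfl
    _ ≤ VV S * (1 + δ) := by
        refine mul_le_mul_of_nonneg_left ?_ hV
        have h1 : 2 * ε * ∑ p ∈ S, 1 / (p : ℝ) ≤ δ / 2 := by linarith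
        refine (Real.exp_le_exp.mpr h1).trans ?_
        have h2 := exp_sub_one (t := δ / 2) (by linarith) (by linarith)
        nlinarith
    _ = _ := by ring

theorem prod_one_sub_ge {S : Finset ℕ} {f : ℕ → ℝ} (h0 : ∀ p ∈ S, 0 ≤ f p) (h1 : ∀ p ∈ S, f p ≤ 1) :
    1 - ∑ p ∈ S, f p ≤ ∏ p ∈ S, (1 - f p) := by
  classical
  induction S using Finset.induction_on with
  | empty => simp
  | insert a S ha ih =>
    rw [sum_insert ha, prod_insert ha]
    have h2 := ih (fun p hp => h0 p (mem_insert_of_mem hp)) (fun p hp => h1 p (mem_insert_of_mem hp))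
    have h3 : ∏ p ∈ S, (1 - f p) ≤ 1 := prod_le_one
      (fun p hp => by have := h1 p (mem_insert_of_mem hp); linarith)
      (fun p hp => by have := h0 p (mem_insert_of_mem hp); linarith)
    have h4 := h0 a (mem_insert_self _ _)
    nlinarith

theorem rho_down {S : Finset ℕ} (hS : ∀ p ∈ S, p.Prime) {ε δ : ℝ} (hε : 0 ≤ ε) (hε1 : ε ≤ 1 / 2)
    (h : 4 * ε * ∑ p ∈ S, 1 / (p : ℝ) ≤ δ) :
    (1 - δ) * VV S ≤ ∏ p ∈ S, (1 - (1 + 2 * ε) / (p : ℝ)) := by
  have hV := VV_nonneg hS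
  have h2' : ∀ p ∈ S, (2 : ℝ) ≤ p := fun p hp => by exact_mod_cast (hS p hp).two_le
  have h1 : 1 - δ ≤ ∏ p ∈ S, (1 - 4 * ε * (1 / (p : ℝ))) := by
    refine le_trans ?_ (prod_one_sub_ge (f := fun p => 4 * ε * (1 / (p : ℝ))) ?_ ?_)
    · rw [← mul_sum]; linarith
    · intro p hp
      have := h2' p hp
      positivity
    · intro p hp
      have h3 := h2' p hp
      have h4 : 1 / (p : ℝ) ≤ 1 / 2 := one_div_le_one_div_of_le (by norm_num) h3
      have h5 : 0 ≤ 1 / (p : ℝ) := by positivity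
      show 4 * ε * (1 / (p : ℝ)) ≤ 1
      nlinarith
  calc (1 - δ) * VV S ≤ (∏ p ∈ S, (1 - 4 * ε * (1 / (p : ℝ)))) * VV S :=
        mul_le_mul_of_nonneg_right h1 hV
    _ = ∏ p ∈ S, ((1 - 4 * ε * (1 / (p : ℝ))) * (1 - 1 / (p : ℝ))) := by
        rw [prod_mul_distrib]; rfl
    _ ≤ ∏ p ∈ S, (1 - (1 + 2 * ε) / (p : ℝ)) := by
        refine prod_le_prod (fun p hp => ?_) (fun p hp => ?_)
        · have h3 := h2' p hp
          have h4 : 1 / (p : ℝ) ≤ 1 / 2 := one_div_le_one_div_of_le (by norm_num) h3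
          have h5 : 0 ≤ 1 / (p : ℝ) := by positivity
          refine mul_nonneg ?_ (by linarith)
          nlinarith
        · have h3 := h2' p hp
          have h4 : 1 / (p : ℝ) ≤ 1 / 2 := one_div_le_one_div_of_le (by norm_num) h3
          have h5 : 0 ≤ 1 / (p : ℝ) := by positivity
          have e : (1 + 2 * ε) / (p : ℝ) = (1 + 2 * ε) * (1 / (p : ℝ)) := by rw [mul_one_div]
          rw [e]
          set t : ℝ := 1 / (p : ℝ)
          nlinarith [mul_nonneg hε h5, mul_nonneg (mul_nonneg hε h5) (by linarith : (0 : ℝ) ≤ 1 / 2 - t)]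

open Classical in
/-- the classes after fixing the random classes of the primes up to `z` -/
noncomputable def clz {R : Finset ℕ} {z : ℕ} (cl : ℕ → ℕ)
    (a : ∀ i : {i : {p // p ∈ R} // (i : ℕ) ≤ z}, Fin ((i : {p // p ∈ R}) : ℕ)) (p : ℕ) : ℕ :=
  if h : p ∈ R ∧ p ≤ z then (a ⟨⟨p, h.1⟩, h.2⟩ : ℕ) else cl p

theorem part_eq {R Ad : Finset ℕ} (hd : Disjoint R Ad) (z y q b : ℕ) (cl : ℕ → ℕ)
    (a : ∀ i : {i : {p // p ∈ R} // (i : ℕ) ≤ z}, Fin ((i : {p // p ∈ R}) : ℕ)) :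
    part (fun i : {p // p ∈ R} => (i : ℕ)) (fun i => (i : ℕ) ≤ z) (sift y q b Ad cl) a =
      sift y q b (Ad ∪ R.filter fun p => p ≤ z) (clz cl a) := by
  unfold part sift
  ext m
  simp only [mem_filter]
  constructor
  · rintro ⟨⟨h1, h2, h3⟩, h4⟩
    refine ⟨h1, h2, fun p hp => ?_⟩
    rcases mem_union.1 hp with hp | hp
    · unfold clz
      rw [dif_neg (fun h => disjoint_left.1 hd h.1 hp)]
      exact h3 p hp
    · unfold clz
      rw [dif_pos (mem_filter.1 hp)]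
      exact h4 ⟨⟨p, (mem_filter.1 hp).1⟩, (mem_filter.1 hp).2⟩
  · rintro ⟨h1, h2, h3⟩
    refine ⟨⟨h1, h2, fun p hp => ?_⟩, fun i => ?_⟩
    · have := h3 p (mem_union_left _ hp)
      unfold clz at this
      rw [dif_neg (fun h => disjoint_left.1 hd h.1 hp)] at this
      exact this
    · have := h3 ((i : {p // p ∈ R}) : ℕ) (mem_union_right _ (mem_filter.2 ⟨i.1.2, i.2⟩))
      unfold clz at this
      rw [dif_pos ⟨i.1.2, i.2⟩] at this
      exact this

theorem expo {y q z : ℕ} (hz : 2 ≤ z) (hq : 0 < q) (h : z * q ≤ y) {ε : ℝ} (hε : 0 < ε) :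
    ε * (z / 2) ≤ ε / ((y : ℝ) / (q * z) + 1) * ((y : ℝ) / q) := by
  have hz' : (0 : ℝ) < z := by exact_mod_cast (by omega : 0 < z)
  have hq' : (0 : ℝ) < q := by exact_mod_cast hq
  have h' : (z : ℝ) * q ≤ y := by exact_mod_cast h
  have h2 : (z : ℝ) ≤ (y : ℝ) / q := by rw [le_div_iff₀ hq']; exact h'
  have e : (y : ℝ) / (q * z) = (y : ℝ) / q / z := by rw [div_div]
  rw [e]
  set w : ℝ := (y : ℝ) / q with hw
  have hw0 : 0 < w := by linarith
  rw [div_mul_eq_mul_div, le_div_iff₀ (by positivity)]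
  have e2 : ε * ((z : ℝ) / 2) * (w / z + 1) = ε * ((w + z) / 2) := by field_simp
  rw [e2]
  exact mul_le_mul_of_nonneg_left (by linarith) hε.le

open Classical in
theorem eng_up (δ : ℝ) (hδ : 0 < δ) (hδ1 : δ ≤ 1) : ∃ s : ℕ, 1 ≤ s ∧ ∀ (z y q b : ℕ)
    (R Ad : Finset ℕ) (cl : ℕ → ℕ) (ε : ℝ), 2 ≤ z → 0 < q → (∀ l ∈ R, l.Prime ∧ ¬ l ∣ q) →
    (∀ l ∈ Ad, l.Prime ∧ ¬ l ∣ q) → (∀ l ∈ Ad, l ≤ z) → Disjoint R Ad →
    z ^ s * q ≤ y → 2 / δ ≤ (y : ℝ) / q → 0 < ε → ε ≤ 1 →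
    4 * ε * ∑ p ∈ R.filter (fun p => ¬ p ≤ z), 1 / (p : ℝ) ≤ δ →
    ((univ.filter fun a : Ch R => (1 + 6 * δ) * ((y : ℝ) / q) * (VV Ad * VV R) <
      ((sv R (sift y q b Ad cl) a).card : ℝ)).card : ℝ) ≤
      (∏ p ∈ R, (p : ℝ)) * Real.exp (-(δ * ε * (z / 2) * (VV Ad * VV R))) := by
  obtain ⟨s, hs1, hs⟩ := sift_up δ hδ hδ1
  refine ⟨s, hs1, fun z y q b R Ad cl ε hz hq hR hAd hAdz hd hzy hy hε hε1 hsum => ?_⟩
  set R1 := R.filter fun p => p ≤ z with hR1
  set R2 := R.filter fun p => ¬ p ≤ z with hR2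
  have hzq : z * q ≤ y := by
    refine le_trans (Nat.mul_le_mul_right q ?_) hzy
    calc z = z ^ 1 := (pow_one z).symm
      _ ≤ z ^ s := Nat.pow_le_pow_right (by omega) hs1
  have hz' : (0 : ℝ) < z := by exact_mod_cast (by omega : 0 < z)
  have hq' : (0 : ℝ) < q := by exact_mod_cast hq
  have hVA : 0 ≤ VV Ad := VV_nonneg fun l hl => (hAd l hl).1
  have hV1 : 0 ≤ VV R1 := VV_nonneg fun l hl => (hR l (mem_filter.1 hl).1).1
  have hV2 : 0 ≤ VV R2 := VV_nonneg fun l hl => (hR l (mem_filter.1 hl).1).1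
  have hVR : VV R = VV R1 * VV R2 := VV_split R z
  set M : ℝ := (y : ℝ) / (q * z) + 1 with hM
  have hM0 : 0 < M := by positivity
  have hdis : Disjoint Ad R1 := (disjoint_of_subset_left (filter_subset _ _) hd).symm
  have hc := conc_up (fun i : {p // p ∈ R} => (i : ℕ)) (fun i => (hR i i.2).1.pos)
    (fun i => (i : ℕ) ≤ z) (sift y q b Ad cl) M ε (ε / M)
    ((1 + 2 * δ) * ((y : ℝ) / q) * VV (Ad ∪ R1)) ((1 + 6 * δ) * ((y : ℝ) / q) * (VV Ad * VV R))
    hM0 hε.le hε1 (by positivity) (by rw [div_mul_cancel₀ _ hM0.ne']) ?_ ?_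
  · unfold sv
    refine le_trans hc ?_
    rw [prod_R R (fun p => (p : ℝ)), prod_big R z (fun p => 1 - (1 - ε) / (p : ℝ)), VV_union hdis, hVR]
    refine mul_le_mul_of_nonneg_left (Real.exp_le_exp.mpr ?_) (by positivity)
    have hρ := rho_up (S := R2) (fun p hp => (hR p (mem_filter.1 hp).1).1) hε.le hδ.le hδ1 hsum
    have hexp := expo hz hq hzq hε
    rw [← hM] at hexp
    set w : ℝ := (y : ℝ) / q
    have hw : 0 ≤ w := by positivity
    set v : ℝ := VV Ad * (VV R1 * VV R2) with hv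
    have hv0 : 0 ≤ v := by positivity
    have h1 : (∏ p ∈ R2, (1 - (1 - ε) / (p : ℝ))) * ((1 + 2 * δ) * w * (VV Ad * VV R1)) ≤
        (1 + 5 * δ) * (w * v) := by
      calc (∏ p ∈ R2, (1 - (1 - ε) / (p : ℝ))) * ((1 + 2 * δ) * w * (VV Ad * VV R1))
          ≤ ((1 + δ) * VV R2) * ((1 + 2 * δ) * w * (VV Ad * VV R1)) :=
            mul_le_mul_of_nonneg_right hρ (by positivity)
        _ = ((1 + δ) * (1 + 2 * δ)) * (w * v) := by rw [hv]; ring
        _ ≤ (1 + 5 * δ) * (w * v) := by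
            refine mul_le_mul_of_nonneg_right ?_ (by positivity)
            nlinarith
    have h2 : (∏ p ∈ R2, (1 - (1 - ε) / (p : ℝ))) * ((1 + 2 * δ) * w * (VV Ad * VV R1)) -
        (1 + 6 * δ) * w * v ≤ -(δ * (w * v)) := by
      have : (1 + 6 * δ) * w * v = (1 + 5 * δ) * (w * v) + δ * (w * v) := by ring
      linarith
    calc ε / M * ((∏ p ∈ R2, (1 - (1 - ε) / (p : ℝ))) * ((1 + 2 * δ) * w * (VV Ad * VV R1)) -
        (1 + 6 * δ) * w * v) ≤ ε / M * (-(δ * (w * v))) :=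
          mul_le_mul_of_nonneg_left h2 (by positivity)
      _ = -(δ * (ε / M * w) * v) := by ring
      _ ≤ -(δ * (ε * (z / 2)) * v) := by
          refine neg_le_neg (mul_le_mul_of_nonneg_right ?_ hv0)
          exact mul_le_mul_of_nonneg_left hexp hδ.le
      _ = _ := by ring
  · intro i hi c
    have hi' : z < (i : ℕ) := not_le.1 hi
    have hip := hR i i.2
    have hcop : Nat.Coprime q i := ((Nat.Prime.coprime_iff_not_dvd hip.1).2 hip.2).symm
    refine le_trans ?_ (le_trans (two_classes (y := y) b c hcop) ?_)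
    · refine Nat.cast_le.2 (card_le_card fun m hm => ?_)
      have h1 := mem_filter.1 hm
      have h2 := mem_filter.1 h1.1
      exact mem_filter.2 ⟨h2.1, h2.2.1, h1.2⟩
    · have h3 : (y : ℝ) / (q * (i : ℕ)) ≤ (y : ℝ) / (q * z) := by
        have h4 : (z : ℝ) ≤ ((i : ℕ) : ℝ) := by exact_mod_cast hi'.le
        exact div_le_div_of_nonneg_left (by positivity) (by positivity)
          (mul_le_mul_of_nonneg_left h4 hq'.le)
      linarith
  · intro a
    rw [part_eq hd]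
    refine hs z y q b _ _ hz hq ?_ ?_ hzy hy
    · intro l hl
      rcases mem_union.1 hl with hl | hl
      · exact hAd l hl
      · exact hR l (mem_filter.1 hl).1
    · intro l hl
      rcases mem_union.1 hl with hl | hl
      · exact hAdz l hl
      · exact (mem_filter.1 hl).2

open Classical in
theorem eng_down (δ : ℝ) (hδ : 0 < δ) (hδ1 : δ ≤ 1) : ∃ s : ℕ, 1 ≤ s ∧ ∀ (z y : ℕ)
    (R Ad : Finset ℕ) (cl : ℕ → ℕ) (ε : ℝ), 2 ≤ z → (∀ l ∈ R, l.Prime) →
    (∀ l ∈ Ad, l.Prime) → (∀ l ∈ Ad, l ≤ z) → Disjoint R Ad →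
    z ^ s ≤ y → 0 < ε → ε ≤ 1 / 2 →
    4 * ε * ∑ p ∈ R.filter (fun p => ¬ p ≤ z), 1 / (p : ℝ) ≤ δ →
    ((univ.filter fun a : Ch R => ((sv R (sift y 1 0 Ad cl) a).card : ℝ) <
      (1 - 4 * δ) * y * (VV Ad * VV R)).card : ℝ) ≤
      (∏ p ∈ R, (p : ℝ)) * Real.exp (-(δ * ε * (z / 2) * (VV Ad * VV R))) := by
  obtain ⟨s, hs1, hs⟩ := sift_down δ hδ hδ1
  refine ⟨s, hs1, fun z y R Ad cl ε hz hR hAd hAdz hd hzy hε hε1 hsum => ?_⟩
  set R1 := R.filter fun p => p ≤ z with hR1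
  set R2 := R.filter fun p => ¬ p ≤ z with hR2
  have hzq : z * 1 ≤ y := by
    refine le_trans ?_ hzy
    calc z * 1 = z ^ 1 := by ring
      _ ≤ z ^ s := Nat.pow_le_pow_right (by omega) hs1
  have hz' : (0 : ℝ) < z := by exact_mod_cast (by omega : 0 < z)
  have hVA : 0 ≤ VV Ad := VV_nonneg hAd
  have hV1 : 0 ≤ VV R1 := VV_nonneg fun l hl => hR l (mem_filter.1 hl).1
  have hV2 : 0 ≤ VV R2 := VV_nonneg fun l hl => hR l (mem_filter.1 hl).1
  have hVR : VV R = VV R1 * VV R2 := VV_split R z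
  set M : ℝ := (y : ℝ) / (((1 : ℕ) : ℝ) * z) + 1 with hM
  have hM0 : 0 < M := by positivity
  have hdis : Disjoint Ad R1 := (disjoint_of_subset_left (filter_subset _ _) hd).symm
  have hc := conc_down (fun i : {p // p ∈ R} => (i : ℕ)) (fun i => (hR i i.2).two_le)
    (fun i => (i : ℕ) ≤ z) (sift y 1 0 Ad cl) M ε (ε / M)
    ((1 - δ) * y * VV (Ad ∪ R1)) ((1 - 4 * δ) * y * (VV Ad * VV R))
    hM0 hε.le hε1 (by positivity) (by rw [div_mul_cancel₀ _ hM0.ne']) ?_ ?_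
  · unfold sv
    refine le_trans hc ?_
    rw [prod_R R (fun p => (p : ℝ)), prod_big R z (fun p => 1 - (1 + 2 * ε) / (p : ℝ)),
      VV_union hdis, hVR]
    refine mul_le_mul_of_nonneg_left (Real.exp_le_exp.mpr ?_) (by positivity)
    have hρ := rho_down (S := R2) (fun p hp => hR p (mem_filter.1 hp).1) hε.le hε1 hsum
    have hexp := expo hz Nat.one_pos hzq hε
    rw [← hM] at hexp
    rw [show (y : ℝ) / ((1 : ℕ) : ℝ) = y by norm_num] at hexp
    have hw : (0 : ℝ) ≤ y := by positivity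
    set w : ℝ := (y : ℝ)
    set v : ℝ := VV Ad * (VV R1 * VV R2) with hv
    have hv0 : 0 ≤ v := by positivity
    have h1 : (1 - 2 * δ) * (w * v) ≤
        (∏ p ∈ R2, (1 - (1 + 2 * ε) / (p : ℝ))) * ((1 - δ) * w * (VV Ad * VV R1)) := by
      calc (1 - 2 * δ) * (w * v) ≤ ((1 - δ) * (1 - δ)) * (w * v) := by
            refine mul_le_mul_of_nonneg_right ?_ (by positivity)
            nlinarith
        _ = ((1 - δ) * VV R2) * ((1 - δ) * w * (VV Ad * VV R1)) := by rw [hv]; ring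
        _ ≤ _ := mul_le_mul_of_nonneg_right hρ (by
            have : 0 ≤ 1 - δ := by linarith
            positivity)
    have h2 : (1 - 4 * δ) * w * v -
        (∏ p ∈ R2, (1 - (1 + 2 * ε) / (p : ℝ))) * ((1 - δ) * w * (VV Ad * VV R1)) ≤
        -(δ * (w * v)) := by
      have h3 : (1 - 4 * δ) * w * v = (1 - 2 * δ) * (w * v) - 2 * (δ * (w * v)) := by ring
      have h4 : 0 ≤ δ * (w * v) := by positivity
      linarith
    calc ε / M * ((1 - 4 * δ) * w * v -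
        (∏ p ∈ R2, (1 - (1 + 2 * ε) / (p : ℝ))) * ((1 - δ) * w * (VV Ad * VV R1)))
        ≤ ε / M * (-(δ * (w * v))) :=
          mul_le_mul_of_nonneg_left h2 (by positivity)
      _ = -(δ * (ε / M * w) * v) := by ring
      _ ≤ -(δ * (ε * (z / 2)) * v) := by
          refine neg_le_neg (mul_le_mul_of_nonneg_right ?_ hv0)
          exact mul_le_mul_of_nonneg_left hexp hδ.le
      _ = _ := by ring
  · intro i hi c
    have hi' : z < (i : ℕ) := not_le.1 hi
    refine le_trans ?_ (le_trans (two_classes (y := y) (q := 1) (p := (i : ℕ)) 0 c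
      (Nat.coprime_one_left_iff _ |>.2 trivial)) ?_)
    · refine Nat.cast_le.2 (card_le_card fun m hm => ?_)
      have h1 := mem_filter.1 hm
      have h2 := mem_filter.1 h1.1
      exact mem_filter.2 ⟨h2.1, h2.2.1, h1.2⟩
    · have h3 : (y : ℝ) / (((1 : ℕ) : ℝ) * (i : ℕ)) ≤ (y : ℝ) / (((1 : ℕ) : ℝ) * z) := by
        have h4 : (z : ℝ) ≤ ((i : ℕ) : ℝ) := by exact_mod_cast hi'.le
        exact div_le_div_of_nonneg_left (by positivity) (by positivity)
          (mul_le_mul_of_nonneg_left h4 (by norm_num))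
      linarith
  · intro a
    rw [part_eq hd]
    refine hs z y _ _ hz ?_ ?_ hzy
    · intro l hl
      rcases mem_union.1 hl with hl | hl
      · exact hAd l hl
      · exact hR l (mem_filter.1 hl).1
    · intro l hl
      rcases mem_union.1 hl with hl | hl
      · exact hAdz l hl
      · exact (mem_filter.1 hl).2

end RS44
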