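import Pool.Agent.RS44.Main

/-!
# The main theorem, assembly
-/

namespace RS44

open Finset YX49

theorem Cov_mono {x y y' : ℕ} {R : Finset ℕ} {a : Ch R} (h : y' ≤ y) (hc : Cov x y R a) :
    Cov x y' R a := by
  obtain ⟨b, hb, hm⟩ := hc
  exact ⟨b, hb, fun m h1 h2 => hm m h1 (h2.trans h)⟩

/-- reciprocals of the primes between `x^c` and `x` -/
theorem sum_R {x : ℕ} {c : ℝ} {R : Finset ℕ} (hc : 0 < c) (hc1 : c ≤ 1) (hcl : 2 ≤ c * Real.log x)
    (hR : ∀ p ∈ R, p.Prime ∧ Real.exp (c * Real.log x) < p ∧ p ≤ x) :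
    ∑ p ∈ R, 1 / (p : ℝ) ≤ |Real.log (2 / c)| + (8 + Pool.Agent.E456.cpp) / Real.log 2 := by
  have hcpp := Pool.Agent.E456.cpp_nonneg
  have hlx : 0 < Real.log x := by
    by_contra h
    have : c * Real.log x ≤ 0 := mul_nonpos_of_nonneg_of_nonpos hc.le (not_lt.1 h)
    linarith
  set M : ℕ := ⌊Real.exp (c * Real.log x)⌋₊ with hM
  have h1 := log_floor_exp (t := c * Real.log x) (by linarith)
  rw [← hM] at h1
  have hlog2 : Real.log 2 ≤ 1 := by
    have := Real.log_two_lt_d9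
    linarith
  have hl2 : 0 < Real.log 2 := Real.log_pos (by norm_num)
  have hM2 : 2 ≤ M := by
    refine Nat.le_floor ?_
    have := Real.add_one_le_exp (c * Real.log x)
    push_cast
    linarith
  have hlM : c * Real.log x / 2 ≤ Real.log M := by linarith
  have hlM2 : Real.log 2 ≤ Real.log M := Real.log_le_log (by norm_num) (by exact_mod_cast hM2)
  have hx0 : (0 : ℝ) < x := by
    rcases Nat.eq_zero_or_pos x with h | h
    · rw [h] at hlx; simp at hlx
    · exact_mod_cast h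
  have hMx : M ≤ x := by
    have h2 : Real.exp (c * Real.log x) ≤ x := by
      nth_rewrite 2 [← Real.exp_log hx0]
      refine Real.exp_le_exp.mpr ?_
      nlinarith
    have h3 : (M : ℝ) ≤ x := (Nat.floor_le (Real.exp_pos _).le).trans h2
    exact_mod_cast h3
  have hmer := Pool.Agent.E456.mertens2_interval M x hM2 hMx
  rw [abs_le] at hmer
  have hsub : R ⊆ (Ioc M x).filter Nat.Prime := by
    intro p hp
    obtain ⟨h2, h3, h4⟩ := hR p hp
    refine mem_filter.2 ⟨mem_Ioc.2 ⟨?_, h4⟩, h2⟩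
    exact (Nat.floor_lt (Real.exp_pos _).le).2 h3
  have h2 : ∑ p ∈ R, 1 / (p : ℝ) ≤ ∑ p ∈ (Ioc M x).filter Nat.Prime, (1 : ℝ) / p :=
    sum_le_sum_of_subset_of_nonneg hsub fun p _ _ => by positivity
  have h3 : Real.log (Real.log x) - Real.log (Real.log M) ≤ |Real.log (2 / c)| := by
    have hM0 : 0 < Real.log M := by linarith
    rw [← Real.log_div hlx.ne' hM0.ne']
    refine le_trans (Real.log_le_log (by positivity) ?_) (le_abs_self _)
    rw [div_le_div_iff₀ hM0 hc]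
    linarith
  have h4 : (8 + Pool.Agent.E456.cpp) / Real.log M ≤ (8 + Pool.Agent.E456.cpp) / Real.log 2 :=
    div_le_div_of_nonneg_left (by linarith) hl2 hlM2
  linarith [hmer.2]

open Classical in
theorem tstar (η : ℝ) (hη : 0 < η) : ∃ κ : ℝ, 0 < κ ∧ ∀ ε A : ℝ, 0 < ε → 0 < A →
    ∃ c : ℝ, 0 < c ∧ ∃ x0 : ℕ, ∀ x : ℕ, x0 ≤ x → ∀ R S : Finset ℕ,
      (∀ p ∈ R, p.Prime ∧ (x : ℝ) ^ c < p ∧ p ≤ x) →
      ∑ p ∈ S, 1 / (p : ℝ) ≤ 1 - η → Dim x R S κ A c →
      ((univ.filter fun a : Ch R => Cov x ⌊(x : ℝ) ^ (1 + ε)⌋₊ R a).card : ℝ) ≤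
        Real.exp (-(x : ℝ) ^ c) * ∏ p ∈ R, (p : ℝ) := by
  set η' : ℝ := min η 1 with hη'
  have hη0 : 0 < η' := lt_min hη one_pos
  have hη1 : η' ≤ 1 := min_le_right _ _
  have hηη : η' ≤ η := min_le_left _ _
  set δ : ℝ := η' / 32 with hδ
  have hδ0 : 0 < δ := by positivity
  have hδ1 : δ ≤ 1 / 32 := by rw [hδ]; linarith
  obtain ⟨s, hs1, hgen⟩ := gen δ hδ0 (by linarith)
  have hs' : (1 : ℝ) ≤ s := by exact_mod_cast hs1
  have hl4s : 0 ≤ Real.log (4 * s) := Real.log_nonneg (by linarith)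
  set κ : ℝ := δ / (200 * (1 + Real.log (4 * s))) with hκ
  have hκ0 : 0 < κ := by positivity
  have hκe : κ * (1 + Real.log (4 * s)) = δ / 200 := by
    rw [hκ]; field_simp
  have hκl : 0 ≤ κ * Real.log (4 * s) := by positivity
  have hκ5 : κ * (1 + Real.log (4 * s)) = κ + κ * Real.log (4 * s) := by ring
  have hκ3 : 200 * κ ≤ δ := by linarith
  have hκ4 : κ * Real.log (4 * s) ≤ δ / 2 := by linarith
  refine ⟨κ, hκ0, fun ε A hε hA => ?_⟩
  set ε0 : ℝ := min ε 1 with hε0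
  have hε00 : 0 < ε0 := lt_min hε one_pos
  have hε01 : ε0 ≤ 1 := min_le_right _ _
  have hε0ε : ε0 ≤ ε := min_le_left _ _
  set c : ℝ := ε0 / (8 * s) with hc
  have hc0 : 0 < c := by positivity
  have hc1 : c ≤ 1 := by
    rw [hc, div_le_one (by positivity)]
    linarith
  have hcs : ε0 = 8 * s * c := by rw [hc]; field_simp
  obtain ⟨c3, hc3, hmert⟩ := mert_lower
  obtain ⟨XB, hblocks⟩ := blocks (ε0 / 4) (by positivity)
  have hcpp := Pool.Agent.E456.cpp_nonneg
  have hlog20 : 0 < Real.log 2 := Real.log_pos (by norm_num)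
  have hlog21 : Real.log 2 ≤ 1 := by
    have := Real.log_two_lt_d9
    linarith
  set Lr : ℝ := |Real.log (2 / c)| + (8 + Pool.Agent.E456.cpp) / Real.log 2 with hLr
  have hLr0 : 0 < Lr := by positivity
  set ε2 : ℝ := min (1 / 2) (δ / (4 * Lr)) with hε2
  have hε20 : 0 < ε2 := lt_min (by norm_num) (by positivity)
  have hε21 : ε2 ≤ 1 / 2 := min_le_left _ _
  have hε22 : ε2 ≤ δ / (4 * Lr) := min_le_right _ _
  set c5 : ℝ := δ * ε2 * c3 / 4 with hc5
  have hc50 : 0 < c5 := by positivity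
  set K1 : ℝ := 4 * s + 32 * s * A / δ + 2 / δ + 2 with hK1
  have hK10 : 0 < K1 := by positivity
  set U : ℝ := max (max XB (2 * K1 / ε0)) (max (2 / c) ((1 + 6 / c5) / (2 * c ^ 2))) with hU
  refine ⟨c, hc0, ⌈Real.exp U⌉₊ + 2, fun x hx R S hR hS hdim => ?_⟩
  have hx2 : 2 ≤ x := by omega
  have hx0 : (0 : ℝ) < x := by exact_mod_cast (by omega : 0 < x)
  set l : ℝ := Real.log x with hl
  have hexpl : Real.exp l = x := Real.exp_log hx0
  have hUl : U ≤ l := by
    rw [hl, ← Real.log_exp U]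
    refine Real.log_le_log (Real.exp_pos _) ?_
    have h1 : Real.exp U ≤ (⌈Real.exp U⌉₊ : ℝ) := Nat.le_ceil _
    have h2 : ((⌈Real.exp U⌉₊ : ℕ) : ℝ) ≤ (x : ℝ) := by exact_mod_cast (by omega : ⌈Real.exp U⌉₊ ≤ x)
    linarith
  have hXB : XB ≤ l := le_trans (le_trans (le_max_left _ _) (le_max_left _ _)) hUl
  have hK1l : 2 * K1 / ε0 ≤ l := le_trans (le_trans (le_max_right _ _) (le_max_left _ _)) hUl
  have h2c : 2 / c ≤ l := le_trans (le_trans (le_max_left _ _) (le_max_right _ _)) hUl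
  have hquad : (1 + 6 / c5) / (2 * c ^ 2) ≤ l :=
    le_trans (le_trans (le_max_right _ _) (le_max_right _ _)) hUl
  have hl0 : 0 < l := lt_of_lt_of_le (by positivity) h2c
  have hcl : 2 ≤ c * l := by
    rw [div_le_iff₀ hc0] at h2c
    linarith
  have hpow : ∀ r : ℝ, (x : ℝ) ^ r = Real.exp (r * l) := fun r => by
    rw [Real.rpow_def_of_pos hx0, mul_comm]
  set T : ℝ := ε0 / 2 * l with hT
  have hTK : K1 ≤ T := by
    rw [div_le_iff₀ hε00] at hK1l
    rw [hT]
    linarith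
  have hK1a : 0 ≤ 32 * s * A / δ := by positivity
  have hK1b : 0 < 2 / δ := by positivity
  have hT4 : 4 * s ≤ T := by linarith
  have hT2 : 2 ≤ T := by linarith
  have hTδ : 2 / δ ≤ T := by linarith
  have hT0 : 0 < T := by linarith
  have hTA : 8 * s * A / T ≤ δ / 4 := by
    rw [div_le_iff₀ hT0]
    have h1 : 32 * s * A / δ ≤ T := by linarith
    rw [div_le_iff₀ hδ0] at h1
    linarith
  -- the length
  set y : ℕ := ⌊(x : ℝ) ^ (1 + ε0)⌋₊ with hy
  set L : ℝ := Real.log y with hL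
  have hyexp : y = ⌊Real.exp ((1 + ε0) * l)⌋₊ := by rw [hy, hpow]
  have hL1 : (1 + ε0) * l - Real.log 2 ≤ L := by
    rw [hL, hyexp]
    exact log_floor_exp (by positivity)
  have hL2 : L ≤ (1 + ε0) * l := by
    rw [hL, hyexp]
    exact log_floor_exp_le (by positivity)
  have hTl : T = ε0 / 2 * l := hT
  have hL3 : (1 + ε0 / 2) * l ≤ L := by
    have : (1 + ε0) * l = (1 + ε0 / 2) * l + T := by rw [hTl]; ring
    linarith
  have hlL : l ≤ L := by
    have h1 : 0 ≤ ε0 / 2 * l := by positivity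
    have h2 : (1 + ε0 / 2) * l = l + ε0 / 2 * l := by ring
    linarith
  have hL0 : 0 < L := by linarith
  have hy0 : (0 : ℝ) < y := by
    rcases Nat.eq_zero_or_pos y with h | h
    · rw [hL, h] at hL0; simp at hL0
    · exact_mod_cast h
  have hexpL : Real.exp L = y := Real.exp_log hy0
  have hTlx : T ≤ l := by
    rw [hTl]
    exact mul_le_of_le_one_left hl0.le (by linarith)
  have hTL : T ≤ L := by
    linarith [hTlx]
  have hTq : ∀ q : ℕ, q.Prime → q ≤ x → T ≤ L - Real.log q := by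
    intro q hq hqx
    have hq0 : (0 : ℝ) < q := by exact_mod_cast hq.pos
    have h1 : Real.log q ≤ l := Real.log_le_log hq0 (by exact_mod_cast hqx)
    have h2 : (1 + ε0) * l = l + 2 * T := by rw [hTl]; ring
    linarith
  have hxw : (x : ℝ) ^ c ≤ (ww s T : ℝ) := by
    rw [hpow]
    have h1 : T / (2 * s) = 2 * (c * l) := by
      rw [hTl, hcs]
      field_simp
      ring
    have h2 := floor_half (t := Real.exp (2 * (c * l))) (Real.one_le_exp (by positivity))
    unfold ww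
    rw [h1]
    refine le_trans ?_ h2
    have h3 := Real.add_one_le_exp (c * l)
    have h4 : Real.exp (2 * (c * l)) = Real.exp (c * l) * Real.exp (c * l) := by
      rw [← Real.exp_add]
      congr 1
      ring
    rw [h4]
    have h5 := Real.exp_pos (c * l)
    have h6 : 2 * Real.exp (c * l) ≤ Real.exp (c * l) * Real.exp (c * l) :=
      mul_le_mul_of_nonneg_right (by linarith) h5.le
    linarith
  have hwx : ww s L ≤ x := by
    have h1 : ((ww s L : ℕ) : ℝ) ≤ Real.exp (L / (2 * s)) := Nat.floor_le (Real.exp_pos _).le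
    have h2 : L / (2 * s) ≤ l := by
      rw [div_le_iff₀ (by positivity)]
      have h3 : (1 + ε0) * l ≤ 2 * l := mul_le_mul_of_nonneg_right (by linarith) hl0.le
      have h4 : l * 2 ≤ l * (2 * s) := mul_le_mul_of_nonneg_left (by linarith) hl0.le
      linarith
    have h3 : ((ww s L : ℕ) : ℝ) ≤ (x : ℝ) := by
      rw [← hexpl]
      exact h1.trans (Real.exp_le_exp.mpr h2)
    exact_mod_cast h3
  have hquad2 : (1 + 6 / c5) * l ≤ Real.exp (2 * (c * l)) := by
    have h1 := Real.quadratic_le_exp_of_nonneg (x := 2 * (c * l)) (by positivity)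
    rw [div_le_iff₀ (by positivity)] at hquad
    have h2 : (1 + 6 / c5) * l ≤ l * (2 * c ^ 2) * l := mul_le_mul_of_nonneg_right hquad hl0.le
    have h3 : l * (2 * c ^ 2) * l = (2 * (c * l)) ^ 2 / 2 := by ring
    have h4 : 0 ≤ 2 * (c * l) := by positivity
    linarith
  have hexpo : ∀ t : ℝ, T ≤ t → (4 : ℝ) ^ (ww s t) *
      Real.exp (-(δ * ε2 * ((zz s t : ℝ) / 2) * (c3 / l))) ≤
      Real.exp (-(x : ℝ) ^ c) / (1 + (x : ℝ) * x) := by
    intro t ht
    have h1 : 2 * (c * l) ≤ t / (2 * s) := by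
      rw [le_div_iff₀ (by positivity)]
      have : 2 * (c * l) * (2 * s) = T := by rw [hTl, hcs]; ring
      linarith
    have h2 := expo_bound (s := s) (x := x) (t := t) (E := Real.exp (t / (2 * s))) (c5 := c5)
      (k := (x : ℝ) ^ c) hs1 hx2 hc50 (by rw [hpow]; exact Real.one_le_exp (by positivity))
      (by linarith) rfl ?_ ?_
    · rw [← hl] at h2
      have e : 4 * c5 * ((zz s t : ℝ) / 2) * (1 / l) = δ * ε2 * ((zz s t : ℝ) / 2) * (c3 / l) := by
        rw [hc5]; ring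
      rw [e] at h2
      exact h2
    · rw [hpow]
      refine Real.exp_le_exp.mpr ?_
      have : 0 ≤ c * l := by positivity
      linarith
    · exact hquad2.trans (Real.exp_le_exp.mpr h1)
  have hRl : ∀ p ∈ R, p.Prime ∧ Real.exp (c * Real.log x) < p ∧ p ≤ x := by
    intro p hp
    obtain ⟨h1, h2, h3⟩ := hR p hp
    rw [hpow] at h2
    exact ⟨h1, h2, h3⟩
  have hsumR := sum_R hc0 hc1 hcl hRl
  rw [← hLr] at hsumR
  have hmain := hgen x y (zz s L) (ww s L) R S (fun q => zz s (L - Real.log q))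
    (fun q => ww s (L - Real.log q)) ε2 (c3 / l) (Real.exp (-(x : ℝ) ^ c) / (1 + (x : ℝ) * x))
    (fun p hp => ⟨(hR p hp).1, (hR p hp).2.2⟩) hwx (two_le_zz hs1 (by linarith))
    (ww_le_zz hL0.le) ?_ ?_ hε20 hε21 ?_ (by positivity) (hmert x hx2) (hexpo L hTL) ?_ ?_
  · have h1 : ((univ.filter fun a : Ch R => Cov x ⌊(x : ℝ) ^ (1 + ε)⌋₊ R a).card : ℝ) ≤
        ((univ.filter fun a : Ch R => Cov x y R a).card : ℝ) := by
      refine Nat.cast_le.2 (card_le_card fun a ha => ?_)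
      refine mem_filter.2 ⟨mem_univ _, Cov_mono ?_ (mem_filter.1 ha).2⟩
      rw [hy]
      refine Nat.floor_mono ?_
      rw [hpow, hpow]
      refine Real.exp_le_exp.mpr (mul_le_mul_of_nonneg_right (by linarith) hl0.le)
    refine h1.trans (hmain.trans (le_of_eq ?_))
    field_simp
  · have h1 := zz_pow hs1 L
    rw [hexpL] at h1
    exact_mod_cast h1
  · intro q hq
    obtain ⟨h2, h3, h4, h5⟩ := mem_qb.1 hq
    have ht := hTq q h2 h3
    have hq0 : (0 : ℝ) < q := by exact_mod_cast h2.pos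
    have hqlog : 0 ≤ Real.log q := Real.log_nonneg (by exact_mod_cast h2.one_lt.le)
    have hyq : Real.exp (L - Real.log q) = (y : ℝ) / q := by
      rw [Real.exp_sub, hexpL, Real.exp_log hq0]
    refine ⟨two_le_zz hs1 (by linarith), ww_le_zz (by linarith), ww_mono (by linarith), ?_, ?_⟩
    · have h1 := zz_pow hs1 (L - Real.log q)
      rw [hyq, le_div_iff₀ hq0] at h1
      exact_mod_cast h1
    · rw [← hyq]
      have := Real.add_one_le_exp (L - Real.log q)
      linarith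
  · have h1 : 4 * ε2 * ∑ p ∈ R, 1 / (p : ℝ) ≤ 4 * ε2 * Lr :=
      mul_le_mul_of_nonneg_left hsumR (by positivity)
    have h2 : 4 * ε2 * Lr ≤ 4 * (δ / (4 * Lr)) * Lr := by
      refine mul_le_mul_of_nonneg_right ?_ hLr0.le
      linarith
    have h3 : 4 * (δ / (4 * Lr)) * Lr = δ := by field_simp
    linarith
  · intro q hq
    obtain ⟨h2, h3, _, _⟩ := mem_qb.1 hq
    exact hexpo (L - Real.log q) (hTq q h2 h3)
  · refine hineq (c := c) (A := A) (κ := κ) hs1 hδ0 hδ1 hκ0 (by linarith) (by linarith) hκ3 hκ4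
      hA.le hdim ?_ hT4 hTA hTq hxw hwx hl0 hTlx hlL ?_
    · rw [hδ]
      linarith
    · refine hblocks x L (by linarith) ?_
      show l ≤ (1 - ε0 / 4) * L
      have h1 : (1 - ε0 / 4) * ((1 + ε0 / 2) * l) ≤ (1 - ε0 / 4) * L :=
        mul_le_mul_of_nonneg_left hL3 (by linarith)
      have h2 : l ≤ (1 - ε0 / 4) * ((1 + ε0 / 2) * l) := by
        have h3 : 0 ≤ ε0 / 8 * (2 - ε0) * l := by
          have : 0 ≤ 2 - ε0 := by linarith
          positivity
        have h4 : (1 - ε0 / 4) * ((1 + ε0 / 2) * l) = l + ε0 / 8 * (2 - ε0) * l := by ring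
        linarith
      linarith

end RS44
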