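import Pool.Agent.RS44.Eng

/-!
# The union bound
-/

namespace RS44

open Finset YX49

/-- the choice `a` of classes for the primes in `R` can be completed to a choice of one class `b p` for every prime
`p ≤ x`, such that the classes contain `1, ..., y` -/
def Cov (x y : ℕ) (R : Finset ℕ) (a : Ch R) : Prop :=
  ∃ b : ℕ → ℕ, (∀ i : {p // p ∈ R}, b i ≡ (a i : ℕ) [MOD (i : ℕ)]) ∧
    ∀ m : ℕ, 1 ≤ m → m ≤ y → ∃ p : ℕ, p.Prime ∧ p ≤ x ∧ m ≡ b p [MOD p]

/-- the primes up to `w` outside `R` and `S` -/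
def ad (R S : Finset ℕ) (w : ℕ) : Finset ℕ := (prs w).filter fun p => p ∉ R ∧ p ∉ S

/-- the primes up to `x` outside `R` which are greater than `w` or in `S` -/
def qb (R S : Finset ℕ) (w x : ℕ) : Finset ℕ := (prs x).filter fun p => p ∉ R ∧ (p ∈ S ∨ w < p)

theorem mem_ad {R S : Finset ℕ} {w p : ℕ} : p ∈ ad R S w ↔ p.Prime ∧ p ≤ w ∧ p ∉ R ∧ p ∉ S := by
  unfold ad
  rw [mem_filter, mem_prs, and_assoc]

theorem mem_qb {R S : Finset ℕ} {w x p : ℕ} :
    p ∈ qb R S w x ↔ p.Prime ∧ p ≤ x ∧ p ∉ R ∧ (p ∈ S ∨ w < p) := by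
  unfold qb
  rw [mem_filter, mem_prs, and_assoc]

theorem pattern (b : ℕ → ℕ) (w : ℕ) : ∃ t ∈ range (primorial w), ∀ p : ℕ, p.Prime → p ≤ w →
    t ≡ b p [MOD p] := by
  have hne : ∀ p ∈ (range (w + 1)).filter Nat.Prime, (fun p : ℕ => p) p ≠ 0 :=
    fun p hp => (mem_filter.1 hp).2.ne_zero
  have hco : Set.Pairwise (((range (w + 1)).filter Nat.Prime : Finset ℕ) : Set ℕ)
      (Function.onFun Nat.Coprime fun p : ℕ => p) := by
    intro p hp q hq hpq
    exact (Nat.coprime_primes (mem_filter.1 hp).2 (mem_filter.1 hq).2).2 hpq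
  refine ⟨(Nat.chineseRemainderOfFinset b (fun p : ℕ => p) ((range (w + 1)).filter Nat.Prime) hne hco :
    ℕ), ?_, ?_⟩
  · rw [mem_range]
    exact Nat.chineseRemainderOfFinset_lt_prod b (fun p : ℕ => p) hne hco
  · intro p hp hpw
    exact (Nat.chineseRemainderOfFinset b (fun p : ℕ => p) ((range (w + 1)).filter Nat.Prime) hne
      hco).2 p (mem_filter.2 ⟨mem_range.2 (by omega), hp⟩)

theorem sv_cover {x y w : ℕ} {wq : ℕ → ℕ} {R S : Finset ℕ} {a : Ch R} {b : ℕ → ℕ}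
    (hb1 : ∀ i : {p // p ∈ R}, b i ≡ (a i : ℕ) [MOD (i : ℕ)])
    (hb2 : ∀ m : ℕ, 1 ≤ m → m ≤ y → ∃ p : ℕ, p.Prime ∧ p ≤ x ∧ m ≡ b p [MOD p])
    {t1 : ℕ} (ht1 : ∀ p : ℕ, p.Prime → p ≤ w → t1 ≡ b p [MOD p])
    {t : ℕ → ℕ} (ht : ∀ q p : ℕ, p.Prime → p ≤ wq q → t q ≡ b p [MOD p])
    (hw : ∀ q ∈ qb R S w x, wq q ≤ w) :
    sv R (sift y 1 0 (ad R S w) fun _ => t1) a ⊆
      (qb R S w x).biUnion fun q => sv R (sift y q (b q % q) (ad R S (wq q)) fun _ => t q) a := by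
  intro m hm
  obtain ⟨hm1, hm2⟩ := mem_sv.1 hm
  obtain ⟨hm3, _, hm4⟩ := mem_filter.1 hm1
  obtain ⟨h0, hy⟩ := mem_Ioc.1 hm3
  obtain ⟨p, hp, hpx, hmp⟩ := hb2 m h0 hy
  have hpR : p ∉ R := by
    intro h
    exact hm2 ⟨p, h⟩ (hmp.trans (hb1 ⟨p, h⟩))
  have hpw : p ∈ S ∨ w < p := by
    by_contra hcon
    rw [not_or] at hcon
    have h1 : p ≤ w := not_lt.1 hcon.2
    exact hm4 p (mem_ad.2 ⟨hp, h1, hpR, hcon.1⟩) (hmp.trans (ht1 p hp h1).symm)
  have hpq : p ∈ qb R S w x := mem_qb.2 ⟨hp, hpx, hpR, hpw⟩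
  refine mem_biUnion.2 ⟨p, hpq, mem_sv.2 ⟨mem_filter.2 ⟨hm3, ?_, ?_⟩, hm2⟩⟩
  · exact hmp.trans (Nat.mod_modEq _ _).symm
  · intro l hl hc
    obtain ⟨hl1, hl2, hl3⟩ := mem_ad.1 hl
    have h2 : l ≤ w := hl2.trans (hw p hpq)
    refine hm4 l (mem_ad.2 ⟨hl1, h2, hl3⟩) ?_
    exact hc.trans ((ht p l hl1 hl2).trans (ht1 l hl1 h2).symm)

theorem VV_prs_le {R Ad : Finset ℕ} {x : ℕ} (hd : Disjoint Ad R) (hR : ∀ p ∈ R, p.Prime ∧ p ≤ x)
    (hA : ∀ p ∈ Ad, p.Prime ∧ p ≤ x) : VV (prs x) ≤ VV Ad * VV R := by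
  rw [← VV_union hd]
  have hsub : Ad ∪ R ⊆ prs x := by
    intro p hp
    rcases mem_union.1 hp with h | h
    · exact mem_prs.2 (hA p h)
    · exact mem_prs.2 (hR p h)
  unfold VV
  rw [← prod_sdiff hsub]
  refine mul_le_of_le_one_left ?_ ?_
  · refine prod_nonneg fun p hp => ?_
    have h2 : (2 : ℝ) ≤ p := by exact_mod_cast (mem_prs.1 (hsub hp)).1.two_le
    have : 1 / (p : ℝ) ≤ 1 := by rw [div_le_one (by linarith)]; linarith
    linarith
  · refine prod_le_one (fun p hp => ?_) (fun p hp => ?_)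
    · have h2 : (2 : ℝ) ≤ p := by exact_mod_cast (mem_prs.1 (mem_sdiff.1 hp).1).1.two_le
      have : 1 / (p : ℝ) ≤ 1 := by rw [div_le_one (by linarith)]; linarith
      linarith
    · have : 0 ≤ 1 / (p : ℝ) := by positivity
      linarith

open Classical in
/-- the union bound over all adversarial patterns of small primes, all classes modulo large primes -/
theorem gen (δ : ℝ) (hδ : 0 < δ) (hδ1 : δ ≤ 1) : ∃ s : ℕ, 1 ≤ s ∧ ∀ (x y z w : ℕ) (R : Finset ℕ)
    (S : Finset ℕ) (zq wq : ℕ → ℕ) (ε V0 F : ℝ), (∀ p ∈ R, p.Prime ∧ p ≤ x) → w ≤ x →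
    2 ≤ z → w ≤ z → z ^ s ≤ y →
    (∀ q ∈ qb R S w x, 2 ≤ zq q ∧ wq q ≤ zq q ∧ wq q ≤ w ∧ (zq q) ^ s * q ≤ y ∧
      2 / δ ≤ (y : ℝ) / q) →
    0 < ε → ε ≤ 1 / 2 → 4 * ε * ∑ p ∈ R, 1 / (p : ℝ) ≤ δ →
    0 ≤ V0 → V0 ≤ VV (prs x) →
    (4 : ℝ) ^ w * Real.exp (-(δ * ε * (z / 2) * V0)) ≤ F →
    (∀ q ∈ qb R S w x, (4 : ℝ) ^ (wq q) * Real.exp (-(δ * ε * ((zq q : ℝ) / 2) * V0)) ≤ F) →
    ∑ q ∈ qb R S w x, (1 + 6 * δ) * (1 / (q : ℝ)) * VV (ad R S (wq q)) < (1 - 4 * δ) * VV (ad R S w) →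
    ((univ.filter fun a : Ch R => Cov x y R a).card : ℝ) ≤
      (∏ p ∈ R, (p : ℝ)) * ((1 + (x : ℝ) * x) * F) := by
  obtain ⟨s1, hs1, hup⟩ := eng_up δ hδ hδ1
  obtain ⟨s2, hs2, hdn⟩ := eng_down δ hδ hδ1
  refine ⟨s1 + s2, by omega, fun x y z w R S zq wq ε V0 F hR hwx hz hwz hzy hQ hε hε1 hsum hV0 hV F1 F2
    hH => ?_⟩
  have hRp : ∀ p ∈ R, p.Prime := fun p hp => (hR p hp).1
  have hVR : 0 < VV R := VV_pos hRp
  have hF : 0 ≤ F := le_trans (by positivity) F1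
  have hdis : ∀ v, Disjoint R (ad R S v) := fun v => by
    rw [disjoint_left]
    exact fun p hp hp' => (mem_ad.1 hp').2.2.1 hp
  have hsumz : ∀ v : ℕ, 4 * ε * ∑ p ∈ R.filter (fun p => ¬ p ≤ v), 1 / (p : ℝ) ≤ δ := by
    intro v
    refine le_trans ?_ hsum
    refine mul_le_mul_of_nonneg_left ?_ (by linarith)
    exact sum_le_sum_of_subset_of_nonneg (filter_subset _ _) fun p _ _ => by positivity
  -- the bad sets
  set B1 : ℕ → Finset (Ch R) := fun t => univ.filter fun a : Ch R =>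
    ((sv R (sift y 1 0 (ad R S w) fun _ => t) a).card : ℝ) < (1 - 4 * δ) * y * (VV (ad R S w) * VV R)
    with hB1
  set B2 : ℕ → ℕ → ℕ → Finset (Ch R) := fun q b t => univ.filter fun a : Ch R =>
    (1 + 6 * δ) * ((y : ℝ) / q) * (VV (ad R S (wq q)) * VV R) <
      ((sv R (sift y q b (ad R S (wq q)) fun _ => t) a).card : ℝ) with hB2
  set Q := qb R S w x with hQdef
  have hPi : (0 : ℝ) ≤ ∏ p ∈ R, (p : ℝ) := by positivity
  have hprim : ∀ v : ℕ, ((primorial v : ℕ) : ℝ) ≤ (4 : ℝ) ^ v := fun v => by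
    exact_mod_cast primorial_le_four_pow v
  have hb1 : ∀ t, ((B1 t).card : ℝ) ≤ (∏ p ∈ R, (p : ℝ)) *
      Real.exp (-(δ * ε * (z / 2) * V0)) := by
    intro t
    refine le_trans (hdn z y R (ad R S w) (fun _ => t) ε hz hRp (fun l hl => (mem_ad.1 hl).1)
      (fun l hl => (mem_ad.1 hl).2.1.trans hwz) (hdis w) ?_ hε hε1 (hsumz z)) ?_
    · exact (Nat.pow_le_pow_right (by omega) (by omega)).trans hzy
    · refine mul_le_mul_of_nonneg_left (Real.exp_le_exp.mpr (neg_le_neg ?_)) hPi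
      refine mul_le_mul_of_nonneg_left ?_ (by positivity)
      exact hV.trans (VV_prs_le (hdis w).symm hR fun p hp =>
        ⟨(mem_ad.1 hp).1, (mem_ad.1 hp).2.1.trans hwx⟩)
  have hb2 : ∀ q ∈ Q, ∀ b t, ((B2 q b t).card : ℝ) ≤ (∏ p ∈ R, (p : ℝ)) *
      Real.exp (-(δ * ε * ((zq q : ℝ) / 2) * V0)) := by
    intro q hq b t
    obtain ⟨hq1, hq2, hq3, hq4, hq5⟩ := hQ q hq
    obtain ⟨hqp, hqx, hqR, hqw⟩ := mem_qb.1 hq
    have hcop : ∀ l : ℕ, l.Prime → l ≠ q → ¬ l ∣ q := fun l hl hne h =>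
      hne ((Nat.prime_dvd_prime_iff_eq hl hqp).1 h)
    refine le_trans (hup (zq q) y q b R (ad R S (wq q)) (fun _ => t) ε hq1 hqp.pos
      (fun l hl => ⟨hRp l hl, hcop l (hRp l hl) fun h => hqR (h ▸ hl)⟩)
      (fun l hl => ⟨(mem_ad.1 hl).1, hcop l (mem_ad.1 hl).1 fun h => ?_⟩)
      (fun l hl => (mem_ad.1 hl).2.1.trans hq2) (hdis _) ?_ hq5 hε (by linarith)
      (hsumz (zq q))) ?_
    · have h1 := (mem_ad.1 hl).2.1
      rcases hqw with hqS | hqw
      · exact (mem_ad.1 hl).2.2.2 (h ▸ hqS)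
      · omega
    · exact (Nat.mul_le_mul_right q (Nat.pow_le_pow_right (by omega) (by omega))).trans hq4
    · refine mul_le_mul_of_nonneg_left (Real.exp_le_exp.mpr (neg_le_neg ?_)) hPi
      refine mul_le_mul_of_nonneg_left ?_ (by positivity)
      exact hV.trans (VV_prs_le (hdis _).symm hR fun p hp =>
        ⟨(mem_ad.1 hp).1, ((mem_ad.1 hp).2.1.trans hq3).trans hwx⟩)
  -- covering choices are bad
  have hsub : (univ.filter fun a : Ch R => Cov x y R a) ⊆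
      ((range (primorial w)).biUnion B1) ∪ (Q.biUnion fun q => (range q).biUnion fun b =>
        (range (primorial (wq q))).biUnion fun t => B2 q b t) := by
    intro a ha
    obtain ⟨b, hb, hcov⟩ := (mem_filter.1 ha).2
    by_contra hcon
    rw [mem_union, not_or] at hcon
    obtain ⟨hc1, hc2⟩ := hcon
    obtain ⟨t1, ht1, hp1⟩ := pattern b w
    choose t ht hpt using fun q => pattern b (wq q)
    have h1 : (1 - 4 * δ) * y * (VV (ad R S w) * VV R) ≤
        ((sv R (sift y 1 0 (ad R S w) fun _ => t1) a).card : ℝ) := by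
      by_contra h
      exact hc1 (mem_biUnion.2 ⟨t1, ht1, mem_filter.2 ⟨mem_univ _, not_le.1 h⟩⟩)
    have h2 : ∀ q ∈ Q, ((sv R (sift y q (b q % q) (ad R S (wq q)) fun _ => t q) a).card : ℝ) ≤
        (1 + 6 * δ) * ((y : ℝ) / q) * (VV (ad R S (wq q)) * VV R) := by
      intro q hq
      by_contra h
      refine hc2 (mem_biUnion.2 ⟨q, hq, mem_biUnion.2 ⟨b q % q, ?_, mem_biUnion.2 ⟨t q, ht q,
        mem_filter.2 ⟨mem_univ _, not_le.1 h⟩⟩⟩⟩)
      exact mem_range.2 (Nat.mod_lt _ (mem_qb.1 hq).1.pos)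
    have h3 := card_le_card (sv_cover (a := a) hb hcov hp1 (t := t) (wq := wq)
      (fun q p hp hpq => hpt q p hp hpq) (fun q hq => (hQ q hq).2.2.1))
    have h4 : ((sv R (sift y 1 0 (ad R S w) fun _ => t1) a).card : ℝ) ≤
        ∑ q ∈ Q, ((sv R (sift y q (b q % q) (ad R S (wq q)) fun _ => t q) a).card : ℝ) := by
      exact_mod_cast h3.trans card_biUnion_le
    have h5 : (1 - 4 * δ) * y * (VV (ad R S w) * VV R) ≤
        ∑ q ∈ Q, (1 + 6 * δ) * ((y : ℝ) / q) * (VV (ad R S (wq q)) * VV R) :=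
      h1.trans (h4.trans (sum_le_sum h2))
    have hy : (0 : ℝ) < y := by
      have : 0 < z ^ (s1 + s2) := by positivity
      exact_mod_cast lt_of_lt_of_le this hzy
    have e1 : ∑ q ∈ Q, (1 + 6 * δ) * ((y : ℝ) / q) * (VV (ad R S (wq q)) * VV R) =
        (∑ q ∈ Q, (1 + 6 * δ) * (1 / (q : ℝ)) * VV (ad R S (wq q))) * (y * VV R) := by
      rw [sum_mul]
      refine sum_congr rfl fun q _ => ?_
      ring
    have e2 : (1 - 4 * δ) * y * (VV (ad R S w) * VV R) = (1 - 4 * δ) * VV (ad R S w) * (y * VV R) := by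
      ring
    rw [e1, e2] at h5
    have := lt_of_mul_lt_mul_right (lt_of_le_of_lt h5 (mul_lt_mul_of_pos_right hH
      (mul_pos hy hVR))) (mul_pos hy hVR).le
    exact lt_irrefl _ this
  have hcard := (Nat.cast_le (α := ℝ)).2 (card_le_card hsub)
  refine hcard.trans ?_
  have hA : ((((range (primorial w)).biUnion B1).card : ℕ) : ℝ) ≤ (∏ p ∈ R, (p : ℝ)) * F := by
    calc ((((range (primorial w)).biUnion B1).card : ℕ) : ℝ)
        ≤ ∑ t ∈ range (primorial w), ((B1 t).card : ℝ) := by exact_mod_cast card_biUnion_le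
      _ ≤ ∑ _t ∈ range (primorial w), (∏ p ∈ R, (p : ℝ)) *
          Real.exp (-(δ * ε * (z / 2) * V0)) := sum_le_sum fun t _ => hb1 t
      _ = (primorial w : ℝ) * ((∏ p ∈ R, (p : ℝ)) * Real.exp (-(δ * ε * (z / 2) * V0))) := by
          rw [sum_const, card_range, nsmul_eq_mul]
      _ ≤ (4 : ℝ) ^ w * ((∏ p ∈ R, (p : ℝ)) * Real.exp (-(δ * ε * (z / 2) * V0))) :=
          mul_le_mul_of_nonneg_right (hprim w) (by positivity)
      _ = (∏ p ∈ R, (p : ℝ)) * ((4 : ℝ) ^ w * Real.exp (-(δ * ε * (z / 2) * V0))) := by ring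
      _ ≤ _ := mul_le_mul_of_nonneg_left F1 hPi
  have hB : (((Q.biUnion fun q => (range q).biUnion fun b =>
        (range (primorial (wq q))).biUnion fun t => B2 q b t).card : ℕ) : ℝ) ≤
      (∏ p ∈ R, (p : ℝ)) * ((x : ℝ) * x * F) := by
    calc (((Q.biUnion fun q => (range q).biUnion fun b =>
        (range (primorial (wq q))).biUnion fun t => B2 q b t).card : ℕ) : ℝ)
        ≤ ∑ q ∈ Q, ∑ b ∈ range q, ∑ t ∈ range (primorial (wq q)), ((B2 q b t).card : ℝ) := by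
          have h1 : (Q.biUnion fun q => (range q).biUnion fun b =>
            (range (primorial (wq q))).biUnion fun t => B2 q b t).card ≤
            ∑ q ∈ Q, ∑ b ∈ range q, ∑ t ∈ range (primorial (wq q)), (B2 q b t).card :=
            card_biUnion_le.trans (sum_le_sum fun q _ => card_biUnion_le.trans
              (sum_le_sum fun b _ => card_biUnion_le))
          exact_mod_cast h1
      _ ≤ ∑ _q ∈ Q, (x : ℝ) * ((∏ p ∈ R, (p : ℝ)) * F) := by
          refine sum_le_sum fun q hq => ?_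
          have hqx : (q : ℝ) ≤ x := by exact_mod_cast (mem_qb.1 hq).2.1
          calc ∑ b ∈ range q, ∑ t ∈ range (primorial (wq q)), ((B2 q b t).card : ℝ)
              ≤ ∑ _b ∈ range q, ∑ _t ∈ range (primorial (wq q)), (∏ p ∈ R, (p : ℝ)) *
                Real.exp (-(δ * ε * ((zq q : ℝ) / 2) * V0)) :=
                sum_le_sum fun b _ => sum_le_sum fun t _ => hb2 q hq b t
            _ = (q : ℝ) * ((primorial (wq q) : ℝ) * ((∏ p ∈ R, (p : ℝ)) *
                Real.exp (-(δ * ε * ((zq q : ℝ) / 2) * V0)))) := by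
                rw [sum_const, sum_const, card_range, card_range, nsmul_eq_mul, nsmul_eq_mul]
            _ ≤ (x : ℝ) * ((4 : ℝ) ^ (wq q) * ((∏ p ∈ R, (p : ℝ)) *
                Real.exp (-(δ * ε * ((zq q : ℝ) / 2) * V0)))) := by
                refine mul_le_mul hqx ?_ (by positivity) (by positivity)
                exact mul_le_mul_of_nonneg_right (hprim _) (by positivity)
            _ = (x : ℝ) * ((∏ p ∈ R, (p : ℝ)) * ((4 : ℝ) ^ (wq q) *
                Real.exp (-(δ * ε * ((zq q : ℝ) / 2) * V0)))) := by ring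
            _ ≤ _ := by
                refine mul_le_mul_of_nonneg_left ?_ (by positivity)
                exact mul_le_mul_of_nonneg_left (F2 q hq) hPi
      _ = (Q.card : ℝ) * ((x : ℝ) * ((∏ p ∈ R, (p : ℝ)) * F)) := by
          rw [sum_const, nsmul_eq_mul]
      _ ≤ (x : ℝ) * ((x : ℝ) * ((∏ p ∈ R, (p : ℝ)) * F)) := by
          refine mul_le_mul_of_nonneg_right ?_ (by positivity)
          have h1 : Q.card ≤ (Ioc 0 x).card :=
            card_le_card ((filter_subset _ _).trans (filter_subset _ _))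
          rw [Nat.card_Ioc] at h1
          exact_mod_cast h1
      _ = _ := by ring
  calc (((((range (primorial w)).biUnion B1) ∪ (Q.biUnion fun q => (range q).biUnion fun b =>
        (range (primorial (wq q))).biUnion fun t => B2 q b t)).card : ℕ) : ℝ)
      ≤ (((range (primorial w)).biUnion B1).card : ℝ) + ((Q.biUnion fun q =>
        (range q).biUnion fun b => (range (primorial (wq q))).biUnion fun t => B2 q b t).card : ℝ) := by
        exact_mod_cast card_union_le _ _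
    _ ≤ (∏ p ∈ R, (p : ℝ)) * F + (∏ p ∈ R, (p : ℝ)) * ((x : ℝ) * x * F) := add_le_add hA hB
    _ = _ := by ring

end RS44
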