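import Pool.Agent.RS44.Ratio

/-!
# The main theorem
-/

namespace RS44

open Finset YX49

/-- adversarial patterns are considered up to `ww` -/
noncomputable def ww (s : ℕ) (t : ℝ) : ℕ := ⌊Real.exp (t / (2 * s))⌋₊

/-- the sieve is used up to `zz` -/
noncomputable def zz (s : ℕ) (t : ℝ) : ℕ := ⌊Real.exp (t / s)⌋₊

theorem log_ww {s : ℕ} (hs : 1 ≤ s) {t : ℝ} (ht : 4 * s ≤ t) :
    t / (4 * s) ≤ Real.log (ww s t) ∧ Real.log (ww s t) ≤ t / (2 * s) := by
  have hs' : (1 : ℝ) ≤ s := by exact_mod_cast hs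
  have h0 : 0 ≤ t / (2 * s) := div_nonneg (by linarith) (by positivity)
  refine ⟨?_, log_floor_exp_le h0⟩
  have h1 := log_floor_exp h0
  have h2 : Real.log 2 ≤ 1 := by
    have := Real.log_two_lt_d9
    linarith
  have h3 : 1 ≤ t / (4 * s) := by rw [le_div_iff₀ (by positivity)]; linarith
  have h4 : t / (2 * s) = 2 * (t / (4 * s)) := by field_simp; ring
  unfold ww
  linarith

theorem ww_mono {s : ℕ} {t L : ℝ} (h : t ≤ L) : ww s t ≤ ww s L := by
  refine Nat.floor_mono (Real.exp_le_exp.mpr ?_)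
  exact div_le_div_of_nonneg_right h (by positivity)

theorem ww_le_zz {s : ℕ} {t : ℝ} (h : 0 ≤ t) : ww s t ≤ zz s t := by
  refine Nat.floor_mono (Real.exp_le_exp.mpr ?_)
  rcases Nat.eq_zero_or_pos s with h0 | h0
  · subst h0; simp
  · have : (0 : ℝ) < s := by exact_mod_cast h0
    exact div_le_div_of_nonneg_left h this (by linarith)

theorem zz_pow {s : ℕ} (hs : 1 ≤ s) (t : ℝ) : ((zz s t : ℕ) : ℝ) ^ s ≤ Real.exp t := by
  have hs' : (0 : ℝ) < s := by exact_mod_cast hs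
  have h1 : ((zz s t : ℕ) : ℝ) ≤ Real.exp (t / s) := Nat.floor_le (Real.exp_pos _).le
  calc ((zz s t : ℕ) : ℝ) ^ s ≤ Real.exp (t / s) ^ s := pow_le_pow_left₀ (by positivity) h1 _
    _ = Real.exp t := by
        rw [← Real.exp_nat_mul]
        congr 1
        field_simp

theorem two_le_zz {s : ℕ} (hs : 1 ≤ s) {t : ℝ} (ht : 4 * s ≤ t) : 2 ≤ zz s t := by
  have hs' : (1 : ℝ) ≤ s := by exact_mod_cast hs
  refine Nat.le_floor ?_
  have h1 : 1 ≤ t / s := by rw [le_div_iff₀ (by linarith)]; linarith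
  have := Real.add_one_le_exp (t / s)
  push_cast
  linarith

/-- the inequality which makes the union bound work -/
theorem hineq {x : ℕ} {R S : Finset ℕ} {κ A c δ L : ℝ} {s : ℕ} (hs : 1 ≤ s)
    (hδ : 0 < δ) (hδ1 : δ ≤ 1 / 32) (hκ : 0 < κ) (hκ1 : 2 * κ ≤ 1 / 4) (hκ2 : 2 * κ ≤ δ / 4)
    (hκ3 : 200 * κ ≤ δ) (hκ4 : κ * Real.log (4 * s) ≤ δ / 2) (hA : 0 ≤ A)
    (hdim : Dim x R S κ A c) (hS : ∑ p ∈ S, 1 / (p : ℝ) ≤ 1 - 32 * δ)
    {T : ℝ} (hT : 4 * s ≤ T) (hTA : 8 * s * A / T ≤ δ / 4)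
    (hTq : ∀ q : ℕ, q.Prime → q ≤ x → T ≤ L - Real.log q)
    (hxw : (x : ℝ) ^ c ≤ ww s T) (hwx : ww s L ≤ x) (hlx : 0 < Real.log x) (hTx : T ≤ Real.log x)
    (hxL : Real.log x ≤ L)
    (hblk : ∑ q ∈ (prs x).filter (fun q : ℕ => L / 2 < Real.log q),
      Real.sqrt (L / (L - Real.log q)) * (1 / (q : ℝ)) ≤ 18) :
    ∑ q ∈ qb R S (ww s L) x, (1 + 6 * δ) * (1 / (q : ℝ)) * VV (ad R S (ww s (L - Real.log q))) <
      (1 - 4 * δ) * VV (ad R S (ww s L)) := by
  have hs' : (1 : ℝ) ≤ s := by exact_mod_cast hs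
  have hT0 : 0 < T := by linarith
  have hL0 : 0 < L := by linarith
  set W := VV (ad R S (ww s L)) with hW
  have hWpos : 0 < W := VV_pos fun p hp => (mem_ad.1 hp).1
  set Q := qb R S (ww s L) x with hQ
  -- the sum over the dimension part
  have hlogw := log_ww hs (t := L) (by linarith)
  have hlw0 : 0 < Real.log (ww s L : ℝ) := lt_of_lt_of_le (by positivity) hlogw.1
  have hQ1 : ∑ q ∈ Q, 1 / (q : ℝ) ≤ 1 - 31 * δ := by
    have h1 : Q ⊆ S ∪ (prs x).filter (fun p : ℕ => ((ww s L : ℕ) : ℝ) < p ∧ (p : ℝ) ≤ (x : ℝ) ∧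
        p ∉ R ∧ p ∉ S) := by
      intro q hq
      obtain ⟨h2, h3, h4, h5⟩ := mem_qb.1 hq
      by_cases h6 : q ∈ S
      · exact mem_union_left _ h6
      · refine mem_union_right _ (mem_filter.2 ⟨mem_prs.2 ⟨h2, h3⟩, ?_, by exact_mod_cast h3, h4, h6⟩)
        rcases h5 with h5 | h5
        · exact absurd h5 h6
        · exact_mod_cast h5
    have h2 := hdim (ww s L) x (hxw.trans (by exact_mod_cast ww_mono (by linarith)))
      (by exact_mod_cast hwx) le_rfl
    have h3 : Real.log (Real.log x / Real.log (ww s L : ℝ)) ≤ Real.log (4 * s) := by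
      refine Real.log_le_log (by positivity) ?_
      rw [div_le_iff₀ hlw0]
      calc Real.log x ≤ L := hxL
        _ = 4 * s * (L / (4 * s)) := by field_simp
        _ ≤ 4 * s * Real.log (ww s L : ℝ) := mul_le_mul_of_nonneg_left hlogw.1 (by positivity)
    have h4 : A / Real.log (ww s L : ℝ) ≤ δ / 8 := by
      calc A / Real.log (ww s L : ℝ) ≤ A / (L / (4 * s)) :=
            div_le_div_of_nonneg_left hA (by positivity) hlogw.1
        _ = 4 * s * A / L := by field_simp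
        _ ≤ 4 * s * A / T := div_le_div_of_nonneg_left (by positivity) hT0 (by linarith)
        _ ≤ δ / 8 := by
            have : 8 * s * A / T = 2 * (4 * s * A / T) := by ring
            linarith
    have h5 : κ * Real.log (Real.log x / Real.log (ww s L : ℝ)) ≤ κ * Real.log (4 * s) :=
      mul_le_mul_of_nonneg_left h3 hκ.le
    calc ∑ q ∈ Q, 1 / (q : ℝ) ≤ ∑ q ∈ S ∪ (prs x).filter (fun p : ℕ => ((ww s L : ℕ) : ℝ) < p ∧
          (p : ℝ) ≤ (x : ℝ) ∧ p ∉ R ∧ p ∉ S), 1 / (q : ℝ) :=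
          sum_le_sum_of_subset_of_nonneg h1 fun q _ _ => by positivity
      _ ≤ ∑ q ∈ S, 1 / (q : ℝ) + ∑ q ∈ (prs x).filter (fun p : ℕ => ((ww s L : ℕ) : ℝ) < p ∧
          (p : ℝ) ≤ (x : ℝ) ∧ p ∉ R ∧ p ∉ S), 1 / (q : ℝ) := by
          have h6 := sum_union_inter (s₁ := S) (s₂ := (prs x).filter (fun p : ℕ =>
            ((ww s L : ℕ) : ℝ) < p ∧ (p : ℝ) ≤ (x : ℝ) ∧ p ∉ R ∧ p ∉ S)) (f := fun q : ℕ => 1 / (q : ℝ))
          have h7 : 0 ≤ ∑ q ∈ S ∩ (prs x).filter (fun p : ℕ =>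
            ((ww s L : ℕ) : ℝ) < p ∧ (p : ℝ) ≤ (x : ℝ) ∧ p ∉ R ∧ p ∉ S), 1 / (q : ℝ) :=
            sum_nonneg fun q _ => by positivity
          linarith
      _ ≤ _ := by linarith
  -- the weighted sum
  have hQ2 : ∑ q ∈ Q, Real.sqrt (L / (L - Real.log q)) * (1 / (q : ℝ)) ≤ 20 := by
    have hnn : ∀ q : ℕ, 0 ≤ Real.sqrt (L / (L - Real.log q)) * (1 / (q : ℝ)) := fun q => by
      positivity
    rw [← sum_filter_add_sum_filter_not Q (fun q : ℕ => L / 2 < Real.log q)]
    have h1 : ∑ q ∈ Q.filter (fun q : ℕ => L / 2 < Real.log q),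
        Real.sqrt (L / (L - Real.log q)) * (1 / (q : ℝ)) ≤ 18 := by
      refine le_trans (sum_le_sum_of_subset_of_nonneg ?_ fun q _ _ => hnn q) hblk
      exact filter_subset_filter _ (filter_subset _ _)
    have h2 : ∑ q ∈ Q.filter (fun q : ℕ => ¬ L / 2 < Real.log q),
        Real.sqrt (L / (L - Real.log q)) * (1 / (q : ℝ)) ≤ 2 := by
      calc ∑ q ∈ Q.filter (fun q : ℕ => ¬ L / 2 < Real.log q),
          Real.sqrt (L / (L - Real.log q)) * (1 / (q : ℝ))
          ≤ ∑ q ∈ Q.filter (fun q : ℕ => ¬ L / 2 < Real.log q), 2 * (1 / (q : ℝ)) := by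
            refine sum_le_sum fun q hq => mul_le_mul_of_nonneg_right ?_ (by positivity)
            have h3 := not_lt.1 (mem_filter.1 hq).2
            refine Real.sqrt_le_iff.2 ⟨by norm_num, ?_⟩
            rw [div_le_iff₀ (by linarith)]
            linarith
        _ ≤ ∑ q ∈ Q, 2 * (1 / (q : ℝ)) :=
            sum_le_sum_of_subset_of_nonneg (filter_subset _ _) fun q _ _ => by positivity
        _ = 2 * ∑ q ∈ Q, 1 / (q : ℝ) := by rw [mul_sum]
        _ ≤ 2 := by linarith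
    linarith
  calc ∑ q ∈ Q, (1 + 6 * δ) * (1 / (q : ℝ)) * VV (ad R S (ww s (L - Real.log q)))
      ≤ ∑ q ∈ Q, (1 + 6 * δ) * (1 / (q : ℝ)) * (W * ((1 + δ) * (1 + 8 * κ *
        Real.sqrt (L / (L - Real.log q))))) := by
        refine sum_le_sum fun q hq => mul_le_mul_of_nonneg_left ?_ (by positivity)
        obtain ⟨h2, h3, h4, h5⟩ := mem_qb.1 hq
        have h6 := hTq q h2 h3
        have h7 : 0 ≤ Real.log q := Real.log_nonneg (by exact_mod_cast h2.one_lt.le)
        refine ratio (c := c) (A := A) (x := x) hs hκ.le hκ1 hκ2 hA (by linarith) hdim (by linarith)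
          (by linarith) ?_ ?_ ?_ hwx (log_ww hs (by linarith)).1 hlogw.2
        · refine le_trans ?_ hTA
          exact div_le_div_of_nonneg_left (by positivity) hT0 h6
        · exact hxw.trans (by exact_mod_cast ww_mono h6)
        · exact ww_mono (by linarith)
    _ = (1 + 6 * δ) * (1 + δ) * W * (∑ q ∈ Q, 1 / (q : ℝ) +
        8 * κ * ∑ q ∈ Q, Real.sqrt (L / (L - Real.log q)) * (1 / (q : ℝ))) := by
        rw [mul_add, mul_sum, mul_sum, mul_sum, ← sum_add_distrib]
        refine sum_congr rfl fun q _ => ?_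
        ring
    _ ≤ (1 + 6 * δ) * (1 + δ) * W * ((1 - 31 * δ) + δ) := by
        refine mul_le_mul_of_nonneg_left ?_ (by positivity)
        have : 8 * κ * ∑ q ∈ Q, Real.sqrt (L / (L - Real.log q)) * (1 / (q : ℝ)) ≤ 8 * κ * 20 :=
          mul_le_mul_of_nonneg_left hQ2 (by positivity)
        linarith
    _ < (1 - 4 * δ) * W := by
        have h1 : (1 + 6 * δ) * (1 + δ) * ((1 - 31 * δ) + δ) < 1 - 4 * δ := by
          have e : (1 + 6 * δ) * (1 + δ) * ((1 - 31 * δ) + δ) =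
            1 - 23 * δ - 204 * δ ^ 2 - 180 * δ ^ 3 := by ring
          have h2 : 0 < δ ^ 2 := by positivity
          have h3 : 0 < δ ^ 3 := by positivity
          rw [e]
          linarith
        calc (1 + 6 * δ) * (1 + δ) * W * ((1 - 31 * δ) + δ) =
              ((1 + 6 * δ) * (1 + δ) * ((1 - 31 * δ) + δ)) * W := by ring
          _ < _ := mul_lt_mul_of_pos_right h1 hWpos

/-- the exponential factor beats the number of patterns -/
theorem expo_bound {s : ℕ} (hs : 1 ≤ s) {x : ℕ} {t E c5 k : ℝ} (hx : 2 ≤ x) (hc5 : 0 < c5)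
    (hk : 1 ≤ k) (ht : 4 * s ≤ t) (hE : Real.exp (t / (2 * s)) = E)
    (hkE : k ≤ E) (hlE : (1 + 6 / c5) * Real.log x ≤ E) :
    (4 : ℝ) ^ (ww s t) * Real.exp (-(4 * c5 * ((zz s t : ℝ) / 2) * (1 / Real.log x))) ≤
      Real.exp (-k) / (1 + (x : ℝ) * x) := by
  have hs' : (1 : ℝ) ≤ s := by exact_mod_cast hs
  have hx' : (2 : ℝ) ≤ x := by exact_mod_cast hx
  have hlx : 0 < Real.log x := Real.log_pos (by linarith)
  have hE1 : 1 ≤ E := by
    rw [← hE]
    exact Real.one_le_exp (div_nonneg (by linarith) (by positivity))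
  have hw : ((ww s t : ℕ) : ℝ) ≤ E := by
    rw [← hE]
    exact Nat.floor_le (Real.exp_pos _).le
  have hEE : Real.exp (t / s) = E * E := by
    rw [← hE, ← Real.exp_add]
    congr 1
    field_simp
    ring
  have hz : E * E / 2 ≤ ((zz s t : ℕ) : ℝ) := by
    have h1 := floor_half (t := Real.exp (t / s))
      (Real.one_le_exp (div_nonneg (by linarith) (by positivity)))
    rw [hEE] at h1
    unfold zz
    rw [hEE]
    exact h1
  have h4 : (4 : ℝ) ^ (ww s t) ≤ Real.exp (2 * E) := by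
    rw [← Real.exp_log (by norm_num : (0 : ℝ) < 4), ← Real.exp_nat_mul]
    refine Real.exp_le_exp.mpr ?_
    have h5 : Real.log 4 ≤ 2 := by
      have h6 := Real.log_two_lt_d9
      have h7 : Real.log 4 = 2 * Real.log 2 := by
        rw [show (4 : ℝ) = 2 ^ 2 by norm_num, Real.log_pow]
        norm_num
      linarith
    calc ((ww s t : ℕ) : ℝ) * Real.log 4 ≤ E * 2 :=
          mul_le_mul hw h5 (Real.log_nonneg (by norm_num)) (by linarith)
      _ = 2 * E := by ring
  have h5 : 1 + (x : ℝ) * x ≤ Real.exp (3 * Real.log x) := by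
    have e : Real.exp (3 * Real.log x) = x * x * x := by
      rw [show 3 * Real.log (x : ℝ) = Real.log x + Real.log x + Real.log x by ring, Real.exp_add,
        Real.exp_add, Real.exp_log (by linarith)]
    rw [e]
    have h6 : (4 : ℝ) ≤ x * x := by nlinarith
    have h7 : 2 * ((x : ℝ) * x) ≤ x * (x * x) := mul_le_mul_of_nonneg_right hx' (by positivity)
    linarith
  rw [le_div_iff₀ (by positivity)]
  have hlE' : Real.log x ≤ E := by
    have : 0 ≤ 6 / c5 * Real.log x := by positivity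
    nlinarith
  have hkey : 6 * E ≤ 4 * c5 * ((zz s t : ℝ) / 2) * (1 / Real.log x) := by
    have h6 : 6 / c5 * Real.log x ≤ E := by nlinarith
    have h7 : 6 * Real.log x ≤ c5 * E := by
      have : 6 / c5 * Real.log x * c5 ≤ E * c5 := mul_le_mul_of_nonneg_right h6 hc5.le
      have e : 6 / c5 * Real.log x * c5 = 6 * Real.log x := by field_simp
      linarith
    calc 6 * E = 6 * Real.log x * E * (1 / Real.log x) := by field_simp
      _ ≤ c5 * E * E * (1 / Real.log x) := by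
          refine mul_le_mul_of_nonneg_right ?_ (by positivity)
          exact mul_le_mul_of_nonneg_right h7 (by linarith)
      _ = 4 * c5 * (E * E / 2 / 2) * (1 / Real.log x) := by ring
      _ ≤ _ := by
          refine mul_le_mul_of_nonneg_right ?_ (by positivity)
          exact mul_le_mul_of_nonneg_left (by linarith) (by positivity)
  calc (4 : ℝ) ^ (ww s t) * Real.exp (-(4 * c5 * ((zz s t : ℝ) / 2) * (1 / Real.log x))) *
        (1 + (x : ℝ) * x)
      ≤ Real.exp (2 * E) * Real.exp (-(6 * E)) * Real.exp (3 * Real.log x) := by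
        refine mul_le_mul (mul_le_mul h4 (Real.exp_le_exp.mpr (neg_le_neg hkey)) ?_ ?_) h5 ?_ ?_ <;>
          positivity
    _ = Real.exp (2 * E + -(6 * E) + 3 * Real.log x) := by rw [← Real.exp_add, ← Real.exp_add]
    _ ≤ Real.exp (-k) := Real.exp_le_exp.mpr (by linarith)

end RS44
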