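import Pool.Agent.RS44.Gen

/-!
# Sums over primes
-/

namespace RS44

open Finset YX49

theorem floor_half {t : ℝ} (ht : 1 ≤ t) : t / 2 ≤ (⌊t⌋₊ : ℝ) := by
  have h1 := Nat.lt_floor_add_one t
  have h2 : (1 : ℝ) ≤ (⌊t⌋₊ : ℝ) := by
    exact_mod_cast (Nat.one_le_floor_iff t).2 ht
  linarith

/-- `log ⌊e^t⌋ ≥ t - log 2` -/
theorem log_floor_exp {t : ℝ} (ht : 0 ≤ t) : t - Real.log 2 ≤ Real.log (⌊Real.exp t⌋₊ : ℝ) := by
  have h1 := floor_half (Real.one_le_exp ht)
  have h2 : Real.log (Real.exp t / 2) ≤ Real.log (⌊Real.exp t⌋₊ : ℝ) :=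
    Real.log_le_log (by positivity) h1
  rwa [Real.log_div (Real.exp_pos _).ne' (by norm_num), Real.log_exp] at h2

theorem log_floor_exp_le {t : ℝ} (ht : 0 ≤ t) : Real.log (⌊Real.exp t⌋₊ : ℝ) ≤ t := by
  have h1 : (⌊Real.exp t⌋₊ : ℝ) ≤ Real.exp t := Nat.floor_le (Real.exp_pos _).le
  have h2 : (0 : ℝ) < (⌊Real.exp t⌋₊ : ℝ) := by
    have := floor_half (Real.one_le_exp ht)
    have := Real.exp_pos t
    linarith
  have h3 := Real.log_le_log h2 h1
  rwa [Real.log_exp] at h3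

theorem block_one : ∃ C : ℝ, 0 < C ∧ ∀ (L : ℝ) (j : ℕ) (T : Finset ℕ), 1 ≤ j → C * 2 ^ j ≤ L →
    (∀ q ∈ T, q.Prime ∧ (1 - 1 / 2 ^ j) * L < Real.log q ∧
      Real.log q ≤ (1 - 1 / 2 ^ (j + 1)) * L) →
    ∑ q ∈ T, 1 / (q : ℝ) ≤ 4 / 2 ^ j := by
  have hcpp := Pool.Agent.E456.cpp_nonneg
  set K : ℝ := 8 + Pool.Agent.E456.cpp with hK
  refine ⟨16 + 4 * K, by positivity, fun L j T hj hL hT => ?_⟩
  have h2j : (2 : ℝ) ≤ 2 ^ j := by
    calc (2 : ℝ) = 2 ^ 1 := by norm_num
      _ ≤ 2 ^ j := pow_le_pow_right₀ (by norm_num) hj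
  set e : ℝ := 1 / 2 ^ j with he
  have he0 : 0 < e := by positivity
  have he1 : e ≤ 1 / 2 := by
    rw [he]; exact one_div_le_one_div_of_le (by norm_num) h2j
  have he2 : (1 : ℝ) / 2 ^ (j + 1) = e / 2 := by
    rw [he, pow_succ]; field_simp
  rw [he2] at hT
  have hLe : 16 + 4 * K ≤ L * e := by
    rw [he, mul_one_div, le_div_iff₀ (by positivity)]
    exact hL
  have hL0 : 0 < L := by
    by_contra h
    have : L * e ≤ 0 := mul_nonpos_of_nonpos_of_nonneg (not_lt.1 h) he0.le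
    linarith
  have hLbig : 32 + 8 * K ≤ L := by
    have : L * e ≤ L * (1 / 2) := mul_le_mul_of_nonneg_left he1 hL0.le
    linarith
  set a : ℝ := (1 - e) * L with ha
  set b : ℝ := (1 - e / 2) * L with hb
  have ha0 : L / 2 ≤ a := by
    rw [ha]
    nlinarith
  have hab : a ≤ b := by
    rw [ha, hb]
    nlinarith
  set M : ℕ := ⌊Real.exp a⌋₊ with hM
  set N : ℕ := ⌊Real.exp b⌋₊ with hN
  have hlog2 : Real.log 2 ≤ 1 := by
    have := Real.log_two_lt_d9
    linarith
  have hMlog := log_floor_exp (t := a) (by linarith)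
  have hNlog := log_floor_exp_le (t := b) (by linarith)
  rw [← hM] at hMlog
  rw [← hN] at hNlog
  have hM2 : 2 ≤ M := by
    rw [hM]
    refine Nat.le_floor ?_
    have := Real.add_one_le_exp a
    push_cast
    linarith
  have hMN : M ≤ N := Nat.floor_mono (Real.exp_le_exp.mpr hab)
  have hmer := Pool.Agent.E456.mertens2_interval M N hM2 hMN
  rw [← hK] at hmer
  have hsub : T ⊆ (Ioc M N).filter Nat.Prime := by
    intro q hq
    obtain ⟨h1, h2, h3⟩ := hT q hq
    have hq0 : (0 : ℝ) < q := by exact_mod_cast h1.pos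
    refine mem_filter.2 ⟨mem_Ioc.2 ⟨?_, ?_⟩, h1⟩
    · rw [hM, Nat.floor_lt (Real.exp_pos _).le]
      rw [← Real.exp_log hq0]
      exact Real.exp_lt_exp.mpr h2
    · rw [hN]
      refine Nat.le_floor ?_
      rw [← Real.exp_log hq0]
      exact Real.exp_le_exp.mpr h3
  have hsum : ∑ q ∈ T, 1 / (q : ℝ) ≤ ∑ q ∈ (Ioc M N).filter Nat.Prime, 1 / (q : ℝ) :=
    sum_le_sum_of_subset_of_nonneg hsub fun q _ _ => by positivity
  have hMpos : 0 < Real.log M := by linarith
  have hNpos : 0 < Real.log N := by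
    have : Real.log M ≤ Real.log N := Real.log_le_log (by positivity) (by exact_mod_cast hMN)
    linarith
  have hratio : Real.log (Real.log N) - Real.log (Real.log M) ≤
      (e * (L / 2) + 1) / (L / 2 - 1) := by
    rw [← Real.log_div hNpos.ne' hMpos.ne']
    refine (Real.log_le_sub_one_of_pos (by positivity)).trans ?_
    have h1 : Real.log N / Real.log M ≤ b / (a - Real.log 2) :=
      div_le_div₀ (by linarith) hNlog (by linarith) hMlog
    have h2 : b / (a - Real.log 2) - 1 = (b - a + Real.log 2) / (a - Real.log 2) := by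
      have : a - Real.log 2 ≠ 0 := by linarith
      field_simp
      ring
    have h3 : b - a = e * (L / 2) := by rw [ha, hb]; ring
    calc Real.log N / Real.log M - 1 ≤ b / (a - Real.log 2) - 1 := by linarith
      _ = (e * (L / 2) + Real.log 2) / (a - Real.log 2) := by rw [h2, h3]
      _ ≤ (e * (L / 2) + 1) / (L / 2 - 1) :=
          div_le_div₀ (by positivity) (by linarith) (by linarith) (by linarith)
  have h1 : (e * (L / 2) + 1) / (L / 2 - 1) ≤ 2 * e := by
    rw [div_le_iff₀ (by linarith)]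
    nlinarith
  have h2 : K / Real.log M ≤ e := by
    rw [div_le_iff₀ hMpos]
    have h3 : L / 4 ≤ Real.log M := by linarith
    have h4 : e * (L / 4) ≤ e * Real.log M := mul_le_mul_of_nonneg_left h3 he0.le
    nlinarith
  rw [abs_le] at hmer
  have h5 : (4 : ℝ) / 2 ^ j = 4 * e := by rw [he]; ring
  rw [h5]
  linarith [hmer.2]

theorem sum_biUnion_le_sum_sum {f : ℕ → ℝ} (hf : ∀ q, 0 ≤ f q) (A : Finset ℕ) (T : ℕ → Finset ℕ) :
    ∑ q ∈ A.biUnion T, f q ≤ ∑ j ∈ A, ∑ q ∈ T j, f q := by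
  induction A using Finset.induction_on with
  | empty => simp
  | insert a A ha ih =>
    rw [biUnion_insert, sum_insert ha]
    have h1 := sum_union_inter (s₁ := T a) (s₂ := A.biUnion T) (f := f)
    have h2 : 0 ≤ ∑ q ∈ T a ∩ A.biUnion T, f q := sum_nonneg fun q _ => hf q
    linarith

theorem geom34 (J : ℕ) : ∑ j ∈ Icc 1 J, ((3 : ℝ) / 4) ^ j = 3 - 3 * (3 / 4) ^ J := by
  induction J with
  | zero => norm_num
  | succ n ih =>
    rw [Finset.sum_Icc_succ_top (by omega), ih, pow_succ]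
    ring

/-- all the blocks together -/
theorem blocks (ε : ℝ) (hε : 0 < ε) : ∃ X : ℝ, ∀ (x : ℕ) (L : ℝ), X ≤ L →
    Real.log x ≤ (1 - ε) * L →
    ∑ q ∈ (prs x).filter (fun q : ℕ => L / 2 < Real.log q),
      Real.sqrt (L / (L - Real.log q)) * (1 / (q : ℝ)) ≤ 18 := by
  obtain ⟨C, hC, hb⟩ := block_one
  obtain ⟨J, hJ⟩ := exists_pow_lt_of_lt_one hε (by norm_num : (1 : ℝ) / 2 < 1)
  refine ⟨C * 2 ^ (J + 1) + 1, fun x L hL hx => ?_⟩
  have hL0 : 0 < L := by
    have : 0 < C * 2 ^ (J + 1) := by positivity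
    linarith
  set T : ℕ → Finset ℕ := fun j => (prs x).filter fun q : ℕ =>
    (1 - 1 / 2 ^ j) * L < Real.log q ∧ Real.log q ≤ (1 - 1 / 2 ^ (j + 1)) * L with hT
  have hsub : (prs x).filter (fun q : ℕ => L / 2 < Real.log q) ⊆ (Icc 1 J).biUnion T := by
    intro q hq
    obtain ⟨hq1, hq2⟩ := mem_filter.1 hq
    obtain ⟨hqp, hqx⟩ := mem_prs.1 hq1
    have hq0 : (0 : ℝ) < q := by exact_mod_cast hqp.pos
    have hlq : Real.log q ≤ (1 - ε) * L :=
      (Real.log_le_log hq0 (by exact_mod_cast hqx)).trans hx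
    have hex : ∃ j : ℕ, Real.log q ≤ (1 - 1 / 2 ^ (j + 1)) * L := by
      refine ⟨J, hlq.trans (mul_le_mul_of_nonneg_right ?_ hL0.le)⟩
      have h1 : (1 : ℝ) / 2 ^ (J + 1) ≤ (1 / 2) ^ J := by
        rw [one_div_pow]
        exact one_div_le_one_div_of_le (by positivity) (pow_le_pow_right₀ (by norm_num) (by omega))
      linarith
    have hJle : Nat.find hex ≤ J := by
      refine Nat.find_min' hex (hlq.trans (mul_le_mul_of_nonneg_right ?_ hL0.le))
      have h1 : (1 : ℝ) / 2 ^ (J + 1) ≤ (1 / 2) ^ J := by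
        rw [one_div_pow]
        exact one_div_le_one_div_of_le (by positivity) (pow_le_pow_right₀ (by norm_num) (by omega))
      linarith
    have hpos : Nat.find hex ≠ 0 := by
      intro h0
      have := Nat.find_spec hex
      rw [h0] at this
      norm_num at this
      linarith
    refine mem_biUnion.2 ⟨Nat.find hex, mem_Icc.2 ⟨by omega, hJle⟩, mem_filter.2 ⟨hq1, ?_,
      Nat.find_spec hex⟩⟩
    have hlt := Nat.find_min hex (m := Nat.find hex - 1) (by omega)
    rw [show Nat.find hex - 1 + 1 = Nat.find hex by omega] at hlt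
    exact not_le.1 hlt
  have hnn : ∀ q : ℕ, 0 ≤ Real.sqrt (L / (L - Real.log q)) * (1 / (q : ℝ)) := fun q => by
    positivity
  calc ∑ q ∈ (prs x).filter (fun q : ℕ => L / 2 < Real.log q),
      Real.sqrt (L / (L - Real.log q)) * (1 / (q : ℝ))
      ≤ ∑ q ∈ (Icc 1 J).biUnion T, Real.sqrt (L / (L - Real.log q)) * (1 / (q : ℝ)) :=
        sum_le_sum_of_subset_of_nonneg hsub fun q _ _ => hnn q
    _ ≤ ∑ j ∈ Icc 1 J, ∑ q ∈ T j, Real.sqrt (L / (L - Real.log q)) * (1 / (q : ℝ)) :=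
        sum_biUnion_le_sum_sum hnn _ _
    _ ≤ ∑ j ∈ Icc 1 J, 6 * ((3 : ℝ) / 4) ^ j := by
        refine sum_le_sum fun j hj => ?_
        obtain ⟨hj1, hj2⟩ := mem_Icc.1 hj
        have h1 : ∀ q ∈ T j, Real.sqrt (L / (L - Real.log q)) ≤ (3 / 2) ^ (j + 1) := by
          intro q hq
          have h2 := (mem_filter.1 hq).2.2
          refine Real.sqrt_le_iff.2 ⟨by positivity, ?_⟩
          have h3 : (1 : ℝ) / 2 ^ (j + 1) * L ≤ L - Real.log q := by linarith
          have h4 : 0 < (1 : ℝ) / 2 ^ (j + 1) * L := by positivity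
          calc L / (L - Real.log q) ≤ L / ((1 : ℝ) / 2 ^ (j + 1) * L) :=
                div_le_div_of_nonneg_left hL0.le h4 h3
            _ = 2 ^ (j + 1) := by field_simp
            _ ≤ (9 / 4) ^ (j + 1) := pow_le_pow_left₀ (by norm_num) (by norm_num) _
            _ = ((3 / 2) ^ (j + 1)) ^ 2 := by
                rw [← pow_mul, mul_comm (j + 1) 2, pow_mul]
                norm_num
        have h2 : ∑ q ∈ T j, 1 / (q : ℝ) ≤ 4 / 2 ^ j := by
          refine hb L j (T j) hj1 ?_ ?_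
          · have : (2 : ℝ) ^ j ≤ 2 ^ (J + 1) := pow_le_pow_right₀ (by norm_num) (by omega)
            nlinarith
          · intro q hq
            exact ⟨(mem_prs.1 (mem_filter.1 hq).1).1, (mem_filter.1 hq).2⟩
        calc ∑ q ∈ T j, Real.sqrt (L / (L - Real.log q)) * (1 / (q : ℝ))
            ≤ ∑ q ∈ T j, (3 / 2) ^ (j + 1) * (1 / (q : ℝ)) :=
              sum_le_sum fun q hq => mul_le_mul_of_nonneg_right (h1 q hq) (by positivity)
          _ = (3 / 2) ^ (j + 1) * ∑ q ∈ T j, 1 / (q : ℝ) := by rw [mul_sum]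
          _ ≤ (3 / 2) ^ (j + 1) * (4 / 2 ^ j) := mul_le_mul_of_nonneg_left h2 (by positivity)
          _ = 6 * ((3 : ℝ) / 4) ^ j := by
              rw [pow_succ, show (3 : ℝ) / 4 = 3 / 2 / 2 by norm_num, div_pow (3 / 2 : ℝ) 2 j]
              ring
    _ ≤ 18 := by
        rw [← mul_sum, geom34]
        have : (0 : ℝ) < (3 / 4) ^ J := by positivity
        linarith

end RS44
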