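import Pool.Agent.RS44.Num

/-!
# The main inequality
-/

namespace RS44

open Finset YX49

/-- `τ^{2κ} ≤ 1 + 8 κ √τ` for `τ ≥ 1`, `2 κ ≤ 1/4` -/
theorem pow_bound {κ τ : ℝ} (hκ : 0 ≤ κ) (hκ1 : 2 * κ ≤ 1 / 4) (hτ : 1 ≤ τ) :
    Real.exp (2 * κ * Real.log τ) ≤ 1 + 8 * κ * Real.sqrt τ := by
  have hτ0 : 0 < τ := by linarith
  set l : ℝ := Real.log τ with hl
  have hl0 : 0 ≤ l := Real.log_nonneg hτ
  have hs : Real.sqrt τ = Real.exp (l / 2) := by
    rw [Real.sqrt_eq_rpow, Real.rpow_def_of_pos hτ0]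
    congr 1
    rw [hl]
    ring
  rw [hs]
  set t : ℝ := 2 * κ * l with ht
  have ht0 : 0 ≤ t := by positivity
  have h1 : Real.exp t - 1 ≤ t * Real.exp t := by
    have h2 := Real.add_one_le_exp (-t)
    have h3 := Real.exp_pos t
    have h4 : (-t + 1) * Real.exp t ≤ Real.exp (-t) * Real.exp t :=
      mul_le_mul_of_nonneg_right h2 h3.le
    rw [← Real.exp_add, neg_add_cancel, Real.exp_zero] at h4
    linarith
  have h2 : l ≤ 4 * Real.exp (l / 4) := by
    have := Real.add_one_le_exp (l / 4)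
    linarith
  have h3 : Real.exp t ≤ Real.exp (l / 4) := by
    refine Real.exp_le_exp.mpr ?_
    have : 2 * κ * l ≤ 1 / 4 * l := mul_le_mul_of_nonneg_right hκ1 hl0
    rw [ht]
    linarith
  have h4 : Real.exp (l / 4) * Real.exp (l / 4) = Real.exp (l / 2) := by
    rw [← Real.exp_add]
    congr 1
    ring
  have h5 : t * Real.exp t ≤ 2 * κ * (4 * Real.exp (l / 4)) * Real.exp (l / 4) := by
    refine mul_le_mul ?_ h3 (Real.exp_pos _).le (by positivity)
    exact mul_le_mul_of_nonneg_left h2 (by positivity)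
  have h6 : 2 * κ * (4 * Real.exp (l / 4)) * Real.exp (l / 4) = 8 * κ * Real.exp (l / 2) := by
    rw [← h4]; ring
  linarith

theorem VV_lower {D : Finset ℕ} (hD : ∀ p ∈ D, p.Prime) :
    Real.exp (-(2 * ∑ p ∈ D, 1 / (p : ℝ))) ≤ VV D := by
  unfold VV
  rw [mul_sum, ← sum_neg_distrib, Real.exp_sum]
  refine prod_le_prod (fun p _ => (Real.exp_pos _).le) (fun p hp => ?_)
  have h2 : (2 : ℝ) ≤ p := by exact_mod_cast (hD p hp).two_le
  have h3 : 1 / (p : ℝ) ≤ 1 / 2 := one_div_le_one_div_of_le (by norm_num) h2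
  have h4 : 0 ≤ 1 / (p : ℝ) := by positivity
  set t : ℝ := 1 / (p : ℝ)
  have h5 : Real.exp (-(2 * t)) ≤ 1 / (1 + 2 * t) := by
    rw [Real.exp_neg, inv_eq_one_div]
    refine one_div_le_one_div_of_le (by linarith) ?_
    have := Real.add_one_le_exp (2 * t)
    linarith
  refine h5.trans ?_
  rw [div_le_iff₀ (by linarith)]
  nlinarith [mul_nonneg h4 (by linarith : (0 : ℝ) ≤ 1 - 2 * t)]

theorem ad_split (R S : Finset ℕ) {v w : ℕ} (h : v ≤ w) :
    VV (ad R S w) = VV (ad R S v) * VV ((ad R S w).filter fun p => ¬ p ≤ v) := by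
  rw [VV_split (ad R S w) v]
  congr 2
  ext p
  rw [mem_filter, mem_ad, mem_ad]
  constructor
  · rintro ⟨⟨h1, _, h3⟩, h4⟩
    exact ⟨h1, h4, h3⟩
  · rintro ⟨h1, h2, h3⟩
    exact ⟨⟨h1, h2.trans h, h3⟩, h2⟩

/-- the hypothesis on the primes outside `R` and `S` -/
def Dim (x : ℕ) (R S : Finset ℕ) (κ A c : ℝ) : Prop :=
  ∀ u v : ℝ, (x : ℝ) ^ c ≤ u → u ≤ v → v ≤ x →
    ∑ p ∈ (prs x).filter (fun p : ℕ => u < p ∧ (p : ℝ) ≤ v ∧ p ∉ R ∧ p ∉ S), 1 / (p : ℝ) ≤
      κ * Real.log (Real.log v / Real.log u) + A / Real.log u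

theorem ratio {x : ℕ} {R S : Finset ℕ} {κ A c δ L t : ℝ} {s : ℕ} {v w : ℕ} (hs : 1 ≤ s)
    (hκ : 0 ≤ κ) (hκ1 : 2 * κ ≤ 1 / 4) (hκ2 : 2 * κ ≤ δ / 4) (hA : 0 ≤ A) (hδ1 : δ ≤ 1)
    (hdim : Dim x R S κ A c) (ht : 4 * s ≤ t) (htL : t ≤ L) (htA : 8 * s * A / t ≤ δ / 4)
    (hxv : (x : ℝ) ^ c ≤ v) (hvw : v ≤ w) (hwx : w ≤ x)
    (hv : t / (4 * s) ≤ Real.log v) (hw : Real.log w ≤ L / (2 * s)) :
    VV (ad R S v) ≤ VV (ad R S w) * ((1 + δ) * (1 + 8 * κ * Real.sqrt (L / t))) := by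
  have hs' : (1 : ℝ) ≤ s := by exact_mod_cast hs
  have ht0 : 0 < t := by linarith
  have hδ0 : 0 ≤ δ := by linarith
  set D := (ad R S w).filter fun p => ¬ p ≤ v with hD
  have hDp : ∀ p ∈ D, p.Prime := fun p hp => (mem_ad.1 (mem_filter.1 hp).1).1
  have hlv : 0 < Real.log v := lt_of_lt_of_le (by positivity) hv
  have hv0 : (0 : ℝ) < v := by
    rcases Nat.eq_zero_or_pos v with h | h
    · rw [h] at hlv; simp at hlv
    · exact_mod_cast h
  have hlw : 0 < Real.log w :=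
    lt_of_lt_of_le hlv (Real.log_le_log hv0 (by exact_mod_cast hvw))
  have h1 := hdim v w hxv (by exact_mod_cast hvw) (by exact_mod_cast hwx)
  have h2 : ∑ p ∈ D, 1 / (p : ℝ) ≤
      ∑ p ∈ (prs x).filter (fun p : ℕ => (v : ℝ) < p ∧ (p : ℝ) ≤ w ∧ p ∉ R ∧ p ∉ S), 1 / (p : ℝ) := by
    refine sum_le_sum_of_subset_of_nonneg ?_ fun p _ _ => by positivity
    intro p hp
    obtain ⟨h3, h4⟩ := mem_filter.1 hp
    obtain ⟨h5, h6, h7, h8⟩ := mem_ad.1 h3
    exact mem_filter.2 ⟨mem_prs.2 ⟨h5, h6.trans hwx⟩, by exact_mod_cast not_le.1 h4,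
      by exact_mod_cast h6, h7, h8⟩
  have h3 : Real.log w / Real.log v ≤ 2 * (L / t) := by
    calc Real.log w / Real.log v ≤ (L / (2 * s)) / (t / (4 * s)) :=
          div_le_div₀ (div_nonneg (by linarith) (by positivity)) hw (by positivity) hv
      _ = 2 * (L / t) := by field_simp; ring
  have hτ : 1 ≤ L / t := by rw [le_div_iff₀ ht0]; linarith
  have h4 : Real.log (Real.log w / Real.log v) ≤ Real.log 2 + Real.log (L / t) := by
    rw [← Real.log_mul (by norm_num) (by linarith)]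
    exact Real.log_le_log (by positivity) h3
  have h5 : A / Real.log v ≤ 4 * s * A / t := by
    calc A / Real.log v ≤ A / (t / (4 * s)) := div_le_div_of_nonneg_left hA (by positivity) hv
      _ = 4 * s * A / t := by field_simp
  have h6 : 2 * ∑ p ∈ D, 1 / (p : ℝ) ≤ δ / 2 + 2 * κ * Real.log (L / t) := by
    have h7 : κ * Real.log (Real.log w / Real.log v) ≤ κ * (Real.log 2 + Real.log (L / t)) :=
      mul_le_mul_of_nonneg_left h4 hκ
    have h8 : Real.log 2 ≤ 1 := by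
      have := Real.log_two_lt_d9
      linarith
    have h9 : κ * Real.log 2 ≤ κ := by nlinarith
    have h10 : 8 * s * A / t = 2 * (4 * s * A / t) := by ring
    nlinarith
  have h7 := VV_lower hDp
  have h8 := ad_split R S hvw
  rw [← hD] at h8
  have hVv : 0 ≤ VV (ad R S v) := VV_nonneg fun p hp => (mem_ad.1 hp).1
  have hVw : 0 ≤ VV (ad R S w) := VV_nonneg fun p hp => (mem_ad.1 hp).1
  have h9 : Real.exp (-(δ / 2 + 2 * κ * Real.log (L / t))) ≤ VV D :=
    (Real.exp_le_exp.mpr (neg_le_neg h6)).trans h7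
  have h10 : VV (ad R S v) ≤ VV (ad R S w) * Real.exp (δ / 2 + 2 * κ * Real.log (L / t)) := by
    rw [h8]
    have e : VV (ad R S v) = VV (ad R S v) * (Real.exp (-(δ / 2 + 2 * κ * Real.log (L / t))) *
        Real.exp (δ / 2 + 2 * κ * Real.log (L / t))) := by
      rw [← Real.exp_add, neg_add_cancel, Real.exp_zero, mul_one]
    calc VV (ad R S v) = VV (ad R S v) * (Real.exp (-(δ / 2 + 2 * κ * Real.log (L / t))) *
        Real.exp (δ / 2 + 2 * κ * Real.log (L / t))) := e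
      _ ≤ VV (ad R S v) * (VV D * Real.exp (δ / 2 + 2 * κ * Real.log (L / t))) :=
          mul_le_mul_of_nonneg_left (mul_le_mul_of_nonneg_right h9 (Real.exp_pos _).le) hVv
      _ = _ := by ring
  refine h10.trans (mul_le_mul_of_nonneg_left ?_ hVw)
  rw [Real.exp_add]
  refine mul_le_mul ?_ (pow_bound hκ hκ1 hτ) (Real.exp_pos _).le (by linarith)
  have h11 := exp_sub_one (t := δ / 2) (by linarith) (by linarith)
  nlinarith

end RS44
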